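import Pool.Agent.Y426.BES.Dense

/-!
# From cells to hypergraphs
-/

set_option autoImplicit false

open Finset

namespace Pool.Agent.Y426.BES

universe u v w

theorem union_le {V : Type w} [DecidableEq V] (S : Finset (Finset V)) (W : Finset V) (r : ℕ)
    (h : ∀ f ∈ S, f.card = r ∧ ∃ t ⊆ f, t.card = 3 ∧ t ⊆ W) :
    (S.biUnion id).card ≤ W.card + S.card * (r - 3) := by
  classical
  choose! hf t ht using h
  have h1 : S.biUnion id ⊆ W ∪ S.biUnion (fun f => f \ t f) := by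
    intro z hz
    obtain ⟨f, hfS, hzf⟩ := mem_biUnion.mp hz
    by_cases hzt : z ∈ t f
    · exact mem_union_left _ ((ht f hfS).2.2 hzt)
    · exact mem_union_right _ (mem_biUnion.mpr ⟨f, hfS, mem_sdiff.mpr ⟨hzf, hzt⟩⟩)
  refine (card_le_card h1).trans ((card_union_le _ _).trans ?_)
  refine Nat.add_le_add_left (card_biUnion_le.trans ?_) _
  rw [← smul_eq_mul, ← sum_const]
  refine sum_le_sum fun f hfS => ?_
  rw [card_sdiff_of_subset (ht f hfS).1, hf f hfS, (ht f hfS).2.1]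

/-- Every dense set of cells (density `δ`) contains `e` cells with at most `n` rows, columns and
symbols. -/
def Cells {ι : Type u} [Fintype ι] {A : ι → Type v} [∀ i, Fintype (A i)]
    (mul : ∀ i, A i → A i → A i) (δ : ℝ) (e n : ℕ) : Prop :=
  ∀ H : Finset (∀ i, A i × A i), δ * ((∏ i, Fintype.card (A i) : ℕ) : ℝ) ^ 2 ≤ H.card →
    ∃ T ⊆ H, T.card = e ∧ ∃ R C S : Finset (∀ i, A i), R.card + C.card + S.card ≤ n ∧
      ∀ t ∈ T, (fun i => (t i).1) ∈ R ∧ (fun i => (t i).2) ∈ C ∧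
        (fun i => mul i (t i).1 (t i).2) ∈ S

/-- the `r`-uniform version -/
theorem graph {ι : Type u} [Fintype ι] {A : ι → Type v} [∀ i, Fintype (A i)]
    (mul : ∀ i, A i → A i → A i) (hA : ∀ i, Nonempty (A i)) (r e n : ℕ)
    (he : 1 ≤ e) (hn : 3 ≤ n) (ε : ℝ) (hN : Cells mul (ε / e) e n)
    (V : Type w) [DecidableEq V] (α β γ : (∀ i, A i) → V) (G : Finset (Finset V))
    (hG : ∀ f ∈ G, f.card = r ∧ ∃ x y : ∀ i, A i, ∃ t ⊆ f, t.card = 3 ∧
      t = {α x, β y, γ (fun i => mul i (x i) (y i))})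
    (hcard : ε * ((∏ i, Fintype.card (A i) : ℕ) : ℝ) ^ 2 ≤ G.card) :
    ∃ S ⊆ G, S.card = e ∧ (S.biUnion id).card ≤ n + e * (r - 3) := by
  classical
  -- the cell of an edge
  have hcell : ∀ f ∈ G, ∃ p : ∀ i, A i × A i, ∃ t ⊆ f, t.card = 3 ∧
      t = {α (fun i => (p i).1), β (fun i => (p i).2), γ (fun i => mul i (p i).1 (p i).2)} := by
    intro f hf
    obtain ⟨-, x, y, t, h⟩ := hG f hf
    exact ⟨fun i => (x i, y i), t, h⟩
  have hQne : Nonempty (∀ i, A i × A i) :=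
    ⟨fun i => (Classical.arbitrary _, Classical.arbitrary _)⟩
  choose! κ hκ using hcell
  by_cases hbig : ∃ p, e ≤ (G.filter fun f => κ f = p).card
  · obtain ⟨p, hp⟩ := hbig
    obtain ⟨S, hS, hSc⟩ := exists_subset_card_eq hp
    refine ⟨S, fun f hf => (mem_filter.mp (hS hf)).1, hSc, ?_⟩
    have h1 := union_le S {α (fun i => (p i).1), β (fun i => (p i).2),
      γ (fun i => mul i (p i).1 (p i).2)} r (by
        intro f hf
        obtain ⟨hfG, hfp⟩ := mem_filter.mp (hS hf)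
        obtain ⟨t, ht1, ht2, ht3⟩ := hκ f hfG
        rw [hfp] at ht3
        exact ⟨(hG f hfG).1, t, ht1, ht2, by rw [ht3]⟩)
    have h2 : ({α (fun i => (p i).1), β (fun i => (p i).2),
      γ (fun i => mul i (p i).1 (p i).2)} : Finset V).card ≤ 3 := card_le_three
    rw [hSc] at h1
    omega
  · push Not at hbig
    have hGH : G.card ≤ (G.image κ).card * e := by
      rw [card_eq_sum_card_image κ G]
      rw [← smul_eq_mul, ← sum_const]
      exact sum_le_sum fun p _ => (hbig p).le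
    have hHc : ε / e * ((∏ i, Fintype.card (A i) : ℕ) : ℝ) ^ 2 ≤ ((G.image κ).card : ℝ) := by
      have h1 : (G.card : ℝ) ≤ ((G.image κ).card : ℝ) * e := by exact_mod_cast hGH
      have he0 : (0 : ℝ) < e := by exact_mod_cast he
      rw [div_mul_eq_mul_div, div_le_iff₀ he0]
      exact hcard.trans h1
    obtain ⟨T, hTH, hTc, R, C, S, hRCS, hT⟩ := hN (G.image κ) hHc
    have hsec : ∀ t ∈ T, ∃ f ∈ G, κ f = t := fun t ht => mem_image.mp (hTH ht)
    choose! φ hφ using hsec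
    have hφinj : Set.InjOn φ T := by
      intro t ht t' ht' h
      rw [← (hφ t ht).2, ← (hφ t' ht').2, h]
    refine ⟨T.image φ, ?_, ?_, ?_⟩
    · intro f hf
      obtain ⟨t, ht, rfl⟩ := mem_image.mp hf
      exact (hφ t ht).1
    · rw [card_image_of_injOn hφinj, hTc]
    · have h1 := union_le (T.image φ) (R.image α ∪ C.image β ∪ S.image γ) r (by
        intro f hf
        obtain ⟨t, ht, rfl⟩ := mem_image.mp hf
        obtain ⟨hfG, hfp⟩ := hφ t ht
        obtain ⟨s, hs1, hs2, hs3⟩ := hκ (φ t) hfG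
        rw [hfp] at hs3
        obtain ⟨hR, hC, hS⟩ := hT t ht
        refine ⟨(hG _ hfG).1, s, hs1, hs2, ?_⟩
        rw [hs3]
        intro z hz
        simp only [mem_insert, mem_singleton] at hz
        rcases hz with rfl | rfl | rfl
        · exact mem_union_left _ (mem_union_left _ (mem_image_of_mem _ hR))
        · exact mem_union_left _ (mem_union_right _ (mem_image_of_mem _ hC))
        · exact mem_union_right _ (mem_image_of_mem _ hS))
      have h2 : (R.image α ∪ C.image β ∪ S.image γ).card ≤ n := by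
        have a1 := card_union_le (R.image α ∪ C.image β) (S.image γ)
        have a2 := card_union_le (R.image α) (C.image β)
        have a3 : (R.image α).card ≤ R.card := card_image_le
        have a4 : (C.image β).card ≤ C.card := card_image_le
        have a5 : (S.image γ).card ≤ S.card := card_image_le
        omega
      rw [card_image_of_injOn hφinj, hTc] at h1
      omega

/-- the `3`-uniform version -/
theorem graph3 {ι : Type u} [Fintype ι] {A : ι → Type v} [∀ i, Fintype (A i)]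
    (mul : ∀ i, A i → A i → A i) (hA : ∀ i, Nonempty (A i)) (e n : ℕ)
    (he : 1 ≤ e) (hn : 3 ≤ n) (ε : ℝ) (hN : Cells mul (ε / e) e n)
    (V : Type w) [DecidableEq V] (α β γ : (∀ i, A i) → V) (G : Finset (Finset V))
    (hG : ∀ f ∈ G, f.card = 3 ∧ ∃ x y : ∀ i, A i,
      f = {α x, β y, γ (fun i => mul i (x i) (y i))})
    (hcard : ε * ((∏ i, Fintype.card (A i) : ℕ) : ℝ) ^ 2 ≤ G.card) :
    ∃ K : Finset V, K.card ≤ n ∧ e ≤ #{f ∈ G | f ⊆ K} := by
  obtain ⟨S, hS, hSc, hSu⟩ := graph mul hA 3 e n he hn ε hN V α β γ G (by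
    intro f hf
    obtain ⟨h1, x, y, h2⟩ := hG f hf
    exact ⟨h1, x, y, f, Subset.refl f, h1, h2⟩) hcard
  refine ⟨S.biUnion id, by simpa using hSu, ?_⟩
  rw [← hSc]
  apply card_le_card
  intro f hf
  exact mem_filter.mpr ⟨hS hf, subset_biUnion_of_mem id hf⟩

/-- exactly `k` vertices -/
theorem pad {V : Type w} [Fintype V] [DecidableEq V] (G : Finset (Finset V)) (k e : ℕ)
    (hG : 2 ^ k < G.card) (K : Finset V) (hK : K.card ≤ k) (he : e ≤ #{f ∈ G | f ⊆ K}) :
    ∃ K : Finset V, K.card = k ∧ e ≤ #{f ∈ G | f ⊆ K} := by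
  have h1 : k ≤ Fintype.card V := by
    by_contra h
    push Not at h
    have h2 : G.card ≤ 2 ^ Fintype.card V := by
      refine (card_le_univ G).trans (le_of_eq ?_)
      rw [Fintype.card_finset]
    have h3 : 2 ^ Fintype.card V ≤ 2 ^ k := Nat.pow_le_pow_right (by norm_num) h.le
    omega
  obtain ⟨K', hK', hc⟩ := exists_superset_card_eq hK h1
  refine ⟨K', hc, he.trans (card_le_card ?_)⟩
  intro f hf
  obtain ⟨h2, h3⟩ := mem_filter.mp hf
  exact mem_filter.mpr ⟨h2, h3.trans hK'⟩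

theorem cells_many (e : ℕ) (he : 1 ≤ e) (δ : ℝ) (hδ : 0 < δ) :
    ∃ N : ℕ, ∀ (ι : Type u) [Fintype ι] (A : ι → Type v) [∀ i, Fintype (A i)]
      (mul : ∀ i, A i → A i → A i) (_ : ∀ i a, Function.Bijective (mul i a))
      (_ : ∀ i a, Function.Bijective (fun b => mul i b a)),
      N ≤ Fintype.card ι → (∀ i, 2 ≤ Fintype.card (A i)) → Cells mul δ e (e + 3) := by
  obtain ⟨N, hN⟩ := cells.{u, v} e he δ hδ
  exact ⟨N, fun ι _ A _ mul hl hr hι hA H hH => hN ι A mul hl hr hι hA H hH⟩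

theorem cells_two (e : ℕ) (he : 6 ≤ e) (δ : ℝ) (hδ : 0 < δ) :
    ∃ n₀ : ℕ, ∀ (ι : Type u) [Fintype ι] (A : ι → Type v) [∀ i, Fintype (A i)]
      (mul : ∀ i, A i → A i → A i) (_ : ∀ i a, Function.Bijective (mul i a))
      (_ : ∀ i a, Function.Bijective (fun b => mul i b a)),
      2 ≤ (univ.filter fun i => n₀ ≤ Fintype.card (A i)).card → (∀ i, Nonempty (A i)) →
      Cells mul δ e (e + 3) := by
  obtain ⟨n₀, hn₀⟩ := two_large_all.{u, v} e he δ hδ
  exact ⟨n₀, fun ι _ A _ mul hl hr h2 hA H hH => hn₀ ι A mul hl hr h2 hA H hH⟩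

theorem cells_dense (m t : ℕ) (δ : ℝ) (hδ : 0 < δ) :
    ∃ n₀ : ℕ, ∀ (ι : Type u) [Fintype ι] (A : ι → Type v) [∀ i, Fintype (A i)]
      (mul : ∀ i, A i → A i → A i) (_ : ∀ i a, Function.Bijective (mul i a))
      (_ : ∀ i a, Function.Bijective (fun b => mul i b a)),
      m ≤ (univ.filter fun i => n₀ ≤ Fintype.card (A i)).card → (∀ i, Nonempty (A i)) →
      Cells mul δ ((2 * (t + 1) + 1) ^ m) (3 * (t + 2) ^ m) := by
  obtain ⟨n₀, hn₀⟩ := dense_large.{u, v} m t δ hδ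
  exact ⟨n₀, fun ι _ A _ mul hl hr h2 hA H hH => hn₀ ι A mul hl hr h2 hA H hH⟩

theorem cells_balanced (M : ℕ) (hM : 1 ≤ M) (δ : ℝ) (hδ : 0 < δ) :
    ∃ n₀ : ℕ, ∀ (ι : Type u) [Fintype ι] (A : ι → Type v) [∀ i, Fintype (A i)]
      (mul : ∀ i, A i → A i → A i) (_ : ∀ i a, Function.Bijective (mul i a))
      (_ : ∀ i a, Function.Bijective (fun b => mul i b a)),
      (3 * M ≤ (univ.filter fun i => n₀ ≤ Fintype.card (A i)).card ∧ ∀ i, Nonempty (A i)) ∨
        (n₀ ≤ Fintype.card ι ∧ ∀ i, 2 ≤ Fintype.card (A i)) →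
      Cells mul δ ((3 * M).choose M * (2 * M).choose M) (3 * (3 * M).choose M) := by
  classical
  obtain ⟨n₁, hn₁⟩ := cube_of_large.{u, v} (3 * M) δ hδ
  obtain ⟨n₂, hn₂⟩ := cube_of_many.{u, v} (3 * M) (by omega) δ hδ
  refine ⟨max n₁ n₂, ?_⟩
  intro ι _ A _ mul hl hr hor H hH
  have hC : Cube mul (3 * M) H := by
    rcases hor with ⟨hm', hA⟩ | ⟨hι, hA⟩
    · obtain ⟨S, hS, hSc⟩ := exists_subset_card_eq hm'
      exact hn₁ ι A mul hl hr S hSc
        (fun i hi => (le_max_left _ _).trans (mem_filter.mp (hS hi)).2) hA H hH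
    · exact hn₂ ι A mul hl hr ((le_max_right _ _).trans hι) hA H hH
  obtain ⟨T, hT1, hT2⟩ := balanced M
  obtain ⟨T', h1, h2, R, C, Z, h3, h4⟩ := cells_of_cube hC T
  exact ⟨T', h1, h2.trans hT1, R, C, Z, h3.trans hT2, h4⟩

end Pool.Agent.Y426.BES
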