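import Pool.Agent.Y426.BES.Prod

/-!
# Cells of a dense set spanning few rows, columns and symbols
-/

set_option autoImplicit false

open Finset

namespace Pool.Agent.Y426.BES

universe u v w

section Frame

variable {ι : Type u} {A : ι → Type v} {m : ℕ} {κ : Type}

/-- rows of the family -/
def row (p q : ∀ i, A i) (f : ι → (Bool × κ) ⊕ Fin m) (b : Fin m → Bool) : ∀ i, A i :=
  fun i => (f i).elim (fun k => if k.1 then q i else p i) (fun e => if b e then q i else p i)

/-- columns of the family -/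
def col {c : ℕ} (σ : ∀ i, Equiv.Perm (A i)) (x : ∀ i, A i) (f : ι → (Bool × Fin c) ⊕ Fin m)
    (w : Fin m → ℕ) : ∀ i, A i :=
  fun i => (f i).elim (fun k => (σ i ^ (k.2 : ℕ)) (x i)) (fun e => (σ i ^ w e) (x i))

theorem row_injective {p q : ∀ i, A i} {f : ι → (Bool × κ) ⊕ Fin m} (hpq : ∀ i, p i ≠ q i)
    (hf : ∀ e, ∃ i, f i = Sum.inr e) : Function.Injective (row p q f) := by
  intro b b' h
  funext e
  obtain ⟨i, hi⟩ := hf e
  have h1 := congrFun h i
  simp only [row, hi, Sum.elim_inr] at h1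
  cases hb : b e <;> cases hb' : b' e <;> simp [hb, hb'] at h1
  · rfl
  · exact absurd h1 (hpq i)
  · exact absurd h1.symm (hpq i)
  · rfl

end Frame

/-- two rows and `c` columns, with only one symbol of the second row outside the first -/
theorem two_rows (c : ℕ) (hc : 1 ≤ c) (δ : ℝ) (hδ : 0 < δ) :
    ∃ N : ℕ, ∀ (ι : Type u) [Fintype ι] (A : ι → Type v) [∀ i, Fintype (A i)]
      (mul : ∀ i, A i → A i → A i) (_ : ∀ i a, Function.Bijective (mul i a))
      (_ : ∀ i a, Function.Bijective (fun b => mul i b a)),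
      N ≤ Fintype.card ι → (∀ i, 2 ≤ Fintype.card (A i)) →
      ∀ H : Finset (∀ i, A i × A i), δ * ((∏ i, Fintype.card (A i) : ℕ) : ℝ) ^ 2 ≤ H.card →
      ∃ (r s : ∀ i, A i) (Y : Finset (∀ i, A i)), r ≠ s ∧ Y.card = c ∧
        (∀ y ∈ Y, (fun i => (r i, y i)) ∈ H ∧ (fun i => (s i, y i)) ∈ H) ∧
        ∃ y₀ ∈ Y, ∀ y ∈ Y, y ≠ y₀ → ∃ y' ∈ Y,
          (fun i => mul i (s i) (y i)) = (fun i => mul i (r i) (y' i)) := by
  classical
  obtain ⟨N, hN⟩ := sub.{u, v} c c hc hc δ hδ
  refine ⟨N, ?_⟩
  intro ι _ A _ mul hl hr hι hA H hH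
  obtain ⟨p, q, x, f, hpq, hf, hmem⟩ := hN ι A mul hl hι hA H hH
  set σ : ∀ i, Equiv.Perm (A i) := fun i => shift (mul i) (hl i) (p i) (q i) with hσ
  have hσx : ∀ i y, mul i (p i) (σ i y) = mul i (q i) y := fun i y => mul_shift _ _ _ _ _
  have hne : ∀ i y, σ i y ≠ y := by
    intro i y h
    have h1 := hσx i y
    rw [h] at h1
    exact hpq i ((hr i y).1 h1)
  set r : ∀ i, A i := row p q f (fun _ => false) with hrdef
  set s : ∀ i, A i := row p q f (fun _ => true) with hsdef
  have hmemr : ∀ w : Fin c → Fin c, (fun i => (r i, col σ x f (fun e => (w e : ℕ)) i)) ∈ H := by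
    intro w
    convert hmem (fun _ => false) w using 2 with i
    rcases hfi : f i with k | e <;> simp [hrdef, row, col, hfi, hσ]
  have hmems : ∀ w : Fin c → Fin c, (fun i => (s i, col σ x f (fun e => (w e : ℕ)) i)) ∈ H := by
    intro w
    convert hmem (fun _ => true) w using 2 with i
    rcases hfi : f i with k | e <;> simp [hsdef, row, col, hfi, hσ]
  have hstep : ∀ w : Fin c → ℕ, (fun i => mul i (s i) (col σ x f w i))
      = (fun i => mul i (r i) (col σ x f (fun e => w e + 1) i)) := by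
    intro w
    funext i
    rcases hfi : f i with k | e
    · simp [hsdef, hrdef, row, col, hfi]
    · simp only [hsdef, hrdef, row, col, hfi, Sum.elim_inr, if_true, Bool.false_eq_true, if_false]
      rw [pow_succ', Equiv.Perm.mul_apply, hσx]
  have hrs : r ≠ s := by
    intro h
    have h1 := row_injective hpq hf h
    have h2 := congrFun h1 ⟨0, hc⟩
    simp at h2
  by_cases hinj : Function.Injective (fun j : Fin c => col σ x f (fun _ => (j : ℕ)))
  · -- a path
    refine ⟨r, s, univ.image (fun j : Fin c => col σ x f (fun _ => (j : ℕ))), hrs, ?_, ?_, ?_⟩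
    · rw [card_image_of_injective _ hinj, card_univ, Fintype.card_fin]
    · intro y hy
      obtain ⟨j, -, rfl⟩ := mem_image.mp hy
      exact ⟨hmemr fun _ => j, hmems fun _ => j⟩
    · refine ⟨_, mem_image.mpr ⟨(⟨c - 1, by omega⟩ : Fin c), mem_univ _, rfl⟩, ?_⟩
      intro y hy hyne
      obtain ⟨j, -, rfl⟩ := mem_image.mp hy
      have hj : (j : ℕ) + 1 < c := by
        by_contra hcon
        apply hyne
        have h1 : (j : ℕ) = c - 1 := by have := j.2; omega
        simp only [h1]
      exact ⟨_, mem_image.mpr ⟨(⟨(j : ℕ) + 1, hj⟩ : Fin c), mem_univ _, rfl⟩, hstep _⟩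
  · -- all columns are periodic
    obtain ⟨t, ht0, htc, ht⟩ : ∃ t : ℕ, 0 < t ∧ t < c ∧
        ∀ i e, f i = Sum.inr e → (σ i ^ t) (x i) = x i := by
      have hcol : ∀ j j' : Fin c, (j : ℕ) < (j' : ℕ) →
          col σ x f (fun _ => (j : ℕ)) = col σ x f (fun _ => (j' : ℕ)) →
          ∃ t : ℕ, 0 < t ∧ t < c ∧ ∀ i e, f i = Sum.inr e → (σ i ^ t) (x i) = x i := by
        intro j j' hlt h
        refine ⟨(j' : ℕ) - j, by omega, by have := j'.2; omega, ?_⟩
        intro i e hi
        have h1 := congrFun h i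
        simp only [col, hi, Sum.elim_inr] at h1
        have h2 : (j' : ℕ) = j + ((j' : ℕ) - j) := by omega
        rw [h2, pow_add, Equiv.Perm.mul_apply] at h1
        exact ((σ i ^ (j : ℕ)).injective h1).symm
      unfold Function.Injective at hinj
      push Not at hinj
      obtain ⟨j, j', h, hjj⟩ := hinj
      rcases lt_trichotomy (j : ℕ) (j' : ℕ) with h1 | h1 | h1
      · exact hcol j j' h1 h
      · exact absurd (Fin.ext h1) hjj
      · exact hcol j' j h1 h.symm
    have hmod : ∀ i e, f i = Sum.inr e → ∀ a : ℕ, (σ i ^ (a % t)) (x i) = (σ i ^ a) (x i) := by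
      intro i e hi a
      have hmul : ∀ b : ℕ, (σ i ^ (t * b)) (x i) = x i := by
        intro b
        induction b with
        | zero => simp
        | succ b ih =>
          rw [Nat.mul_succ, pow_add, Equiv.Perm.mul_apply, ht i e hi, ih]
      have h2 : a = a % t + t * (a / t) := (Nat.mod_add_div a t).symm
      conv_rhs => rw [h2, pow_add, Equiv.Perm.mul_apply, hmul]
    set Y : Finset (∀ i, A i) :=
      univ.image (fun w : Fin c → Fin c => col σ x f (fun e => (w e : ℕ))) with hY
    have hYclosed : ∀ y ∈ Y, ∃ y' ∈ Y,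
        (fun i => mul i (s i) (y i)) = (fun i => mul i (r i) (y' i)) := by
      intro y hy
      obtain ⟨w, -, rfl⟩ := mem_image.mp hy
      refine ⟨_, mem_image.mpr ⟨fun e => ⟨((w e : ℕ) + 1) % t,
        lt_trans (Nat.mod_lt _ ht0) htc⟩, mem_univ _, rfl⟩, ?_⟩
      rw [hstep]
      funext i
      rcases hfi : f i with k | e
      · simp [col, hfi]
      · simp only [col, hfi, Sum.elim_inr]
        rw [hmod i e hfi]
    have hYcard : c ≤ Y.card := by
      have hinj1 : Function.Injective (fun e : Fin c =>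
          col σ x f (fun e' => ((if e' = e then (⟨1, by omega⟩ : Fin c) else ⟨0, hc⟩ : Fin c) : ℕ)))
          := by
        intro e e' h
        by_contra hee
        obtain ⟨i, hi⟩ := hf e
        have h1 := congrFun h i
        simp only [col, hi, Sum.elim_inr, if_true, if_neg hee] at h1
        simp only [pow_one, pow_zero, Equiv.Perm.one_apply] at h1
        exact hne i _ h1
      calc c = (univ.image (fun e : Fin c => col σ x f
            (fun e' => ((if e' = e then (⟨1, by omega⟩ : Fin c) else ⟨0, hc⟩ : Fin c) : ℕ)))).card := by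
              rw [card_image_of_injective _ hinj1, card_univ, Fintype.card_fin]
        _ ≤ Y.card := by
              apply card_le_card
              intro y hy
              obtain ⟨e, -, rfl⟩ := mem_image.mp hy
              exact mem_image.mpr ⟨fun e' => if e' = e then (⟨1, by omega⟩ : Fin c) else ⟨0, hc⟩,
                mem_univ _, rfl⟩
    obtain ⟨Z, hZY, hZc, z₀, hz₀, hZ⟩ := chain
      (fun y y' => (fun i => mul i (s i) (y i)) = (fun i => mul i (r i) (y' i))) Y hYclosed c hc hYcard
    refine ⟨r, s, Z, hrs, hZc, ?_, z₀, hz₀, hZ⟩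
    intro y hy
    obtain ⟨w, -, rfl⟩ := mem_image.mp (hZY hy)
    exact ⟨hmemr w, hmems w⟩

/-- `e` cells of a dense set spanning at most `e + 3` rows, columns and symbols -/
theorem cells (e : ℕ) (he : 1 ≤ e) (δ : ℝ) (hδ : 0 < δ) :
    ∃ N : ℕ, ∀ (ι : Type u) [Fintype ι] (A : ι → Type v) [∀ i, Fintype (A i)]
      (mul : ∀ i, A i → A i → A i) (_ : ∀ i a, Function.Bijective (mul i a))
      (_ : ∀ i a, Function.Bijective (fun b => mul i b a)),
      N ≤ Fintype.card ι → (∀ i, 2 ≤ Fintype.card (A i)) →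
      ∀ H : Finset (∀ i, A i × A i), δ * ((∏ i, Fintype.card (A i) : ℕ) : ℝ) ^ 2 ≤ H.card →
      ∃ T ⊆ H, T.card = e ∧ ∃ R C S : Finset (∀ i, A i), R.card + C.card + S.card ≤ e + 3 ∧
        ∀ t ∈ T, (fun i => (t i).1) ∈ R ∧ (fun i => (t i).2) ∈ C ∧
          (fun i => mul i (t i).1 (t i).2) ∈ S := by
  classical
  obtain ⟨N, hN⟩ := two_rows.{u, v} ((e + 1) / 2) (by omega) δ hδ
  refine ⟨N, ?_⟩
  intro ι _ A _ mul hl hr hι hA H hH
  obtain ⟨r, s, Y, hrs, hYc, hYH, y₀, hy₀, hY⟩ := hN ι A mul hl hr hι hA H hH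
  have hinj : ∀ r : ∀ i, A i, Function.Injective (fun (y : ∀ i, A i) i => (r i, y i)) := by
    intro r y y' h
    funext i
    have := congrFun h i
    exact (Prod.mk.inj this).2
  have hne : ∀ y y' : ∀ i, A i, (fun i => (r i, y i)) ≠ (fun i => (s i, y' i)) := by
    intro y y' h
    apply hrs
    funext i
    have := congrFun h i
    exact (Prod.mk.inj this).1
  set T₁ : Finset (∀ i, A i × A i) := Y.image (fun y i => (r i, y i)) with hT₁
  have hT₁c : T₁.card = (e + 1) / 2 := by rw [hT₁, card_image_of_injective _ (hinj r), hYc]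
  have hT₁H : T₁ ⊆ H := by
    intro t ht
    obtain ⟨y, hy, rfl⟩ := mem_image.mp ht
    exact (hYH y hy).1
  have hRC : ({r, s} : Finset (∀ i, A i)).card ≤ 2 := card_le_two
  rcases Nat.even_or_odd e with hev | hodd
  · -- all cells
    set T₂ : Finset (∀ i, A i × A i) := Y.image (fun y i => (s i, y i)) with hT₂
    have hT₂c : T₂.card = (e + 1) / 2 := by rw [hT₂, card_image_of_injective _ (hinj s), hYc]
    have hdisj : Disjoint T₁ T₂ := by
      rw [disjoint_left]
      intro t h1 h2
      obtain ⟨y, -, hy⟩ := mem_image.mp h1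
      obtain ⟨y', -, hy'⟩ := mem_image.mp h2
      exact hne y y' (hy.trans hy'.symm)
    refine ⟨T₁ ∪ T₂, union_subset hT₁H ?_, ?_, {r, s}, Y,
      insert (fun i => mul i (s i) (y₀ i)) (Y.image (fun y i => mul i (r i) (y i))), ?_, ?_⟩
    · intro t ht
      obtain ⟨y, hy, rfl⟩ := mem_image.mp ht
      exact (hYH y hy).2
    · rw [card_union_of_disjoint hdisj, hT₁c, hT₂c]
      obtain ⟨k, hk⟩ := hev
      omega
    · have h1 := card_insert_le (fun i => mul i (s i) (y₀ i)) (Y.image (fun y i => mul i (r i) (y i)))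
      have h2 : (Y.image (fun y i => mul i (r i) (y i))).card ≤ Y.card := card_image_le
      obtain ⟨k, hk⟩ := hev
      omega
    · intro t ht
      rcases mem_union.mp ht with h | h
      · obtain ⟨y, hy, rfl⟩ := mem_image.mp h
        exact ⟨by simp, hy, mem_insert_of_mem (mem_image.mpr ⟨y, hy, rfl⟩)⟩
      · obtain ⟨y, hy, rfl⟩ := mem_image.mp h
        refine ⟨by simp, hy, ?_⟩
        by_cases hyy : y = y₀
        · subst hyy
          exact mem_insert_self _ _
        · obtain ⟨y', hy', h'⟩ := hY y hy hyy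
          exact mem_insert_of_mem (mem_image.mpr ⟨y', hy', h'.symm⟩)
  · set T₂ : Finset (∀ i, A i × A i) := (Y.erase y₀).image (fun y i => (s i, y i)) with hT₂
    have hT₂c : T₂.card = (e + 1) / 2 - 1 := by
      rw [hT₂, card_image_of_injective _ (hinj s), card_erase_of_mem hy₀, hYc]
    have hdisj : Disjoint T₁ T₂ := by
      rw [disjoint_left]
      intro t h1 h2
      obtain ⟨y, -, hy⟩ := mem_image.mp h1
      obtain ⟨y', -, hy'⟩ := mem_image.mp h2
      exact hne y y' (hy.trans hy'.symm)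
    refine ⟨T₁ ∪ T₂, union_subset hT₁H ?_, ?_, {r, s}, Y,
      Y.image (fun y i => mul i (r i) (y i)), ?_, ?_⟩
    · intro t ht
      obtain ⟨y, hy, rfl⟩ := mem_image.mp ht
      exact (hYH y (mem_of_mem_erase hy)).2
    · rw [card_union_of_disjoint hdisj, hT₁c, hT₂c]
      obtain ⟨k, hk⟩ := hodd
      omega
    · have h2 : (Y.image (fun y i => mul i (r i) (y i))).card ≤ Y.card := card_image_le
      obtain ⟨k, hk⟩ := hodd
      omega
    · intro t ht
      rcases mem_union.mp ht with h | h
      · obtain ⟨y, hy, rfl⟩ := mem_image.mp h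
        exact ⟨by simp, hy, mem_image.mpr ⟨y, hy, rfl⟩⟩
      · obtain ⟨y, hy, rfl⟩ := mem_image.mp h
        obtain ⟨y', hy', h'⟩ := hY y (mem_of_mem_erase hy) (ne_of_mem_erase hy)
        exact ⟨by simp, mem_of_mem_erase hy, mem_image.mpr ⟨y', hy', h'.symm⟩⟩

end Pool.Agent.Y426.BES
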