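import Mathlib
import Pool.Agent.Helper903.DHJ

/-!
# Random coordinatewise embeddings of words, and the density Hales–Jewett theorem
-/

set_option autoImplicit false

open Finset

namespace Pool.Agent.Y426.BES

open Pool.Agent.Helper903.DHJ (mdhj)

universe u v w

/-- density of a set of words, as a quotient of cardinalities -/
theorem dens_eq {X : Type} [Fintype X] (P : X → Prop) [DecidablePred P] :
    Pool.Agent.Helper903.DHJ.dens {x | P x} = ((univ.filter P).card : ℝ) / Fintype.card X := by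
  unfold Pool.Agent.Helper903.DHJ.dens Pool.Agent.Helper903.DHJ.avg
  congr 1
  rw [card_filter]
  push_cast
  refine sum_congr rfl fun x _ => ?_
  by_cases hx : P x
  · rw [Pool.Agent.Helper903.DHJ.ind_mem (show x ∈ {x | P x} from hx), if_pos hx]
  · rw [Pool.Agent.Helper903.DHJ.ind_not_mem (show x ∉ {x | P x} from hx), if_neg hx]

theorem embed (K : Type) [Fintype K] [Nonempty K] (m : ℕ) (hm : 0 < m) (δ : ℝ) (hδ : 0 < δ) :
    ∃ n : ℕ, 0 < n ∧ ∀ (ι : Type u) [Fintype ι] (g : ι → Fin n) (Θ : ι → Type v) (B : ι → Type w)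
      [∀ i, Fintype (Θ i)] [∀ i, Fintype (B i)] (cell : ∀ i, K → Θ i → B i) (F : ι → ℕ),
      (∀ i, 0 < F i) → (∀ i k b, Nat.card {t // cell i k t = b} = F i) →
      ∀ H : Finset (∀ i, B i), H.Nonempty → δ * ((∏ i, Fintype.card (B i) : ℕ) : ℝ) ≤ H.card →
      ∃ (θ : ∀ i, Θ i) (V : Combinatorics.Subspace (Fin m) K (Fin n)),
        ∀ x, (fun i => cell i (V x (g i)) (θ i)) ∈ H := by
  classical
  obtain ⟨n, hn⟩ := mdhj K m (min δ 1) (lt_min hδ one_pos)
  refine ⟨n, ?_, ?_⟩
  · by_contra h0
    obtain ⟨V, -⟩ := hn {x | True} (by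
      rw [dens_eq]
      simp only [filter_true, card_univ]
      rw [div_self (by exact_mod_cast Fintype.card_ne_zero)]
      exact min_le_right _ _)
    obtain ⟨i, -⟩ := V.proper ⟨0, hm⟩
    exact absurd i.2 (by omega)
  intro ι _ g Θ B _ _ cell F hF hcell H hne hH
  by_contra hcon
  push Not at hcon
  have hfib : ∀ (w : Fin n → K) (b : ∀ i, B i),
      (univ.filter fun θ : ∀ i, Θ i => (fun i => cell i (w (g i)) (θ i)) = b).card
        = ∏ i, F i := by
    intro w b
    have h1 : (univ.filter fun θ : ∀ i, Θ i => (fun i => cell i (w (g i)) (θ i)) = b)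
        = Fintype.piFinset (fun i => univ.filter fun t => cell i (w (g i)) t = b i) := by
      ext θ
      simp [funext_iff]
    rw [h1, Fintype.card_piFinset]
    refine prod_congr rfl fun i _ => ?_
    rw [← hcell i (w (g i)) (b i), Nat.card_eq_fintype_card, Fintype.card_subtype]
  have hHc : ∀ w : Fin n → K,
      (univ.filter fun θ : ∀ i, Θ i => (fun i => cell i (w (g i)) (θ i)) ∈ H).card
        = H.card * ∏ i, F i := by
    intro w
    rw [card_eq_sum_card_fiberwise (f := fun (θ : ∀ i, Θ i) i => cell i (w (g i)) (θ i)) (t := H)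
      (by intro θ hθ; simpa using hθ)]
    rw [sum_congr rfl (g := fun _ => ∏ i, F i), sum_const, smul_eq_mul]
    intro b hb
    rw [← hfib w b, filter_filter]
    congr 1
    ext θ
    simp only [mem_filter, mem_univ, true_and]
    constructor
    · rintro ⟨-, h⟩
      exact h
    · intro h
      exact ⟨by rw [h]; exact hb, h⟩
  have hΘ : Fintype.card (∀ i, Θ i) = (∏ i, Fintype.card (B i)) * ∏ i, F i := by
    rw [Fintype.card_pi, ← prod_mul_distrib]
    refine prod_congr rfl fun i _ => ?_
    obtain ⟨k⟩ := ‹Nonempty K›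
    rw [← card_univ, card_eq_sum_card_fiberwise (f := cell i k) (t := univ)
      (by intro θ _; simp)]
    rw [sum_congr rfl (g := fun _ => F i), sum_const, smul_eq_mul, card_univ]
    intro b _
    rw [← hcell i k b, Nat.card_eq_fintype_card, Fintype.card_subtype]
  have hΘne : Nonempty (∀ i, Θ i) := by
    obtain ⟨b, hb⟩ := hne
    refine ⟨fun i => ?_⟩
    have k : K := Classical.arbitrary K
    have h1 : 0 < Nat.card {t // cell i k t = b i} := by rw [hcell]; exact hF i
    have h2 : Nonempty {t // cell i k t = b i} := (Nat.card_pos_iff.mp h1).1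
    exact (Classical.arbitrary {t // cell i k t = b i}).1
  have hsmall : ∀ θ : ∀ i, Θ i,
      ((univ.filter fun w : Fin n → K => (fun i => cell i (w (g i)) (θ i)) ∈ H).card : ℝ)
        < δ * Fintype.card (Fin n → K) := by
    intro θ
    by_contra h
    push Not at h
    have hpos : (0 : ℝ) < Fintype.card (Fin n → K) := by exact_mod_cast Fintype.card_pos
    obtain ⟨V, hV⟩ := hn {w | (fun i => cell i (w (g i)) (θ i)) ∈ H} (by
      rw [dens_eq]
      refine (min_le_left _ _).trans ?_
      rw [le_div_iff₀ hpos]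
      exact h)
    obtain ⟨x, hx⟩ := hcon θ V
    exact hx (hV x)
  have hsum : ∑ θ : ∀ i, Θ i,
      (univ.filter fun w : Fin n → K => (fun i => cell i (w (g i)) (θ i)) ∈ H).card
        = Fintype.card (Fin n → K) * (H.card * ∏ i, F i) := by
    have h1 : ∑ θ : ∀ i, Θ i,
        (univ.filter fun w : Fin n → K => (fun i => cell i (w (g i)) (θ i)) ∈ H).card
        = ∑ w : Fin n → K,
        (univ.filter fun θ : ∀ i, Θ i => (fun i => cell i (w (g i)) (θ i)) ∈ H).card := by
      simp only [card_filter]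
      exact sum_comm
    rw [h1, sum_congr rfl (fun w _ => hHc w), sum_const, smul_eq_mul, card_univ]
  have hlt : ((∑ θ : ∀ i, Θ i,
      (univ.filter fun w : Fin n → K => (fun i => cell i (w (g i)) (θ i)) ∈ H).card : ℕ) : ℝ)
        < ∑ θ : ∀ i, Θ i, δ * Fintype.card (Fin n → K) := by
    push_cast
    exact sum_lt_sum_of_nonempty univ_nonempty fun θ _ => hsmall θ
  rw [hsum, sum_const, nsmul_eq_mul, card_univ, hΘ] at hlt
  push_cast at hlt hH
  have hKpos : (0 : ℝ) < (Fintype.card K : ℝ) ^ n := by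
    have : 0 < Fintype.card K := Fintype.card_pos
    positivity
  have hFpos : (0 : ℝ) < ∏ i, (F i : ℝ) := prod_pos fun i _ => by exact_mod_cast hF i
  have h2 : δ * (∏ i, (Fintype.card (B i) : ℝ)) * (∏ i, (F i : ℝ)) * (Fintype.card (Fin n → K) : ℝ)
      ≤ H.card * (∏ i, (F i : ℝ)) * (Fintype.card (Fin n → K) : ℝ) := by
    gcongr
  nlinarith

/-- in a finite set each of whose elements has a successor there are `c` elements all of which
but one have their successor among them -/
theorem chain {Q : Type u} (P : Q → Q → Prop) (Y : Finset Q)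
    (hP : ∀ y ∈ Y, ∃ y' ∈ Y, P y y') (c : ℕ) (hc : 1 ≤ c) (hY : c ≤ Y.card) :
    ∃ Z ⊆ Y, Z.card = c ∧ ∃ z₀ ∈ Z, ∀ z ∈ Z, z ≠ z₀ → ∃ z' ∈ Z, P z z' := by
  classical
  induction c, hc using Nat.le_induction with
  | base =>
    obtain ⟨y, hy⟩ := card_pos.mp (lt_of_lt_of_le Nat.zero_lt_one hY)
    refine ⟨{y}, by simpa using hy, card_singleton y, y, mem_singleton_self y, ?_⟩
    intro z hz hzy
    exact absurd (mem_singleton.mp hz) hzy
  | succ c hc ih =>
    obtain ⟨Z, hZY, hZc, z₀, hz₀, hZ⟩ := ih (by omega)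
    by_cases hcl : ∃ z' ∈ Z, P z₀ z'
    · -- closed: add any element
      obtain ⟨y, hyY, hyZ⟩ : ∃ y ∈ Y, y ∉ Z := by
        by_contra h
        push Not at h
        have := card_le_card (show Y ⊆ Z from h)
        omega
      refine ⟨insert y Z, insert_subset hyY hZY, by rw [card_insert_of_notMem hyZ, hZc], y,
        mem_insert_self y Z, ?_⟩
      intro z hz hzy
      have hzZ : z ∈ Z := (mem_insert.mp hz).resolve_left hzy
      by_cases hz0 : z = z₀
      · obtain ⟨z', h1, h2⟩ := hcl
        exact ⟨z', mem_insert_of_mem h1, hz0 ▸ h2⟩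
      · obtain ⟨z', h1, h2⟩ := hZ z hzZ hz0
        exact ⟨z', mem_insert_of_mem h1, h2⟩
    · obtain ⟨y, hyY, hy⟩ := hP z₀ (hZY hz₀)
      have hyZ : y ∉ Z := fun h => hcl ⟨y, h, hy⟩
      refine ⟨insert y Z, insert_subset hyY hZY, by rw [card_insert_of_notMem hyZ, hZc], y,
        mem_insert_self y Z, ?_⟩
      intro z hz hzy
      have hzZ : z ∈ Z := (mem_insert.mp hz).resolve_left hzy
      by_cases hz0 : z = z₀
      · exact ⟨y, mem_insert_self y Z, hz0 ▸ hy⟩
      · obtain ⟨z', h1, h2⟩ := hZ z hzZ hz0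
        exact ⟨z', mem_insert_of_mem h1, h2⟩

/-- a surjection from a large finite type onto `Fin n` -/
theorem exists_surj {ι : Type u} [Fintype ι] (n : ℕ) (hn : 0 < n) (h : n ≤ Fintype.card ι) :
    ∃ g : ι → Fin n, Function.Surjective g := by
  classical
  let e := Fintype.equivFin ι
  refine ⟨fun i => if h' : (e i).1 < n then ⟨(e i).1, h'⟩ else ⟨0, hn⟩, ?_⟩
  intro j
  refine ⟨e.symm ⟨j.1, lt_of_lt_of_le j.2 h⟩, ?_⟩
  simp

end Pool.Agent.Y426.BES
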