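import Mathlib

/-!
# Corners in dense sets of cells of a quasigroup (triangle removal)
-/

set_option autoImplicit false

open Finset SimpleGraph SimpleGraph.TripartiteFromTriangles

namespace Pool.Agent.Y426.BES

universe u v w

section Quasi

variable {A : Type v} (mul : A → A → A) (hl : ∀ a, Function.Bijective (mul a))
  (hr : ∀ b, Function.Bijective (fun a => mul a b))

noncomputable def ldiv (a c : A) : A := (Equiv.ofBijective (mul a) (hl a)).symm c

noncomputable def rdiv (c b : A) : A := (Equiv.ofBijective (fun a => mul a b) (hr b)).symm c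

theorem mul_ldiv (a c : A) : mul a (ldiv mul hl a c) = c :=
  (Equiv.ofBijective (mul a) (hl a)).apply_symm_apply c

theorem rdiv_mul (c b : A) : mul (rdiv mul hr c b) b = c :=
  (Equiv.ofBijective (fun a => mul a b) (hr b)).apply_symm_apply c

/-- the three cells of the corner with row `a`, column `b` and symbol `c` -/
noncomputable def cell3 (k : Fin 3) (t : A × A × A) : A × A :=
  if k = 1 then (t.1, ldiv mul hl t.1 t.2.2)
  else if k = 2 then (rdiv mul hr t.2.2 t.2.1, t.2.1) else (t.1, t.2.1)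

end Quasi

theorem corners (ε : ℝ) (hε : 0 < ε) : ∃ δ : ℝ, 0 < δ ∧ ∃ n₀ : ℕ,
    ∀ (A : Type v) [Fintype A] [DecidableEq A] (mul : A → A → A)
      (hl : ∀ a, Function.Bijective (mul a)) (hr : ∀ b, Function.Bijective (fun a => mul a b)),
      n₀ ≤ Fintype.card A → ∀ E : Finset (A × A), ε * (Fintype.card A : ℝ) ^ 2 ≤ E.card →
      δ * (Fintype.card A : ℝ) ^ 3 ≤
        ((univ.filter fun t : A × A × A => mul t.1 t.2.1 ≠ t.2.2 ∧
          ∀ k, cell3 mul hl hr k t ∈ E).card : ℝ) := by
  set δ₀ : ℝ := triangleRemovalBound (ε / 9) * 27 with hδ₀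
  have hδ₀pos : 0 < δ₀ := by
    have : 0 < triangleRemovalBound (ε / 9) := triangleRemovalBound_pos (by positivity)
    positivity
  refine ⟨δ₀ / 2, by positivity, ⌈2 / δ₀⌉₊, ?_⟩
  intro A _ _ mul hl hr hn E hE
  set t : Finset (A × A × A) := E.image (fun p => (p.1, p.2, mul p.1 p.2)) with ht
  have hmem : ∀ a b c, (a, b, c) ∈ t ↔ (a, b) ∈ E ∧ c = mul a b := by
    intro a b c
    rw [ht, mem_image]
    constructor
    · rintro ⟨⟨x, y⟩, hxy, h⟩
      simp only [Prod.mk.injEq] at h
      obtain ⟨rfl, rfl, rfl⟩ := h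
      exact ⟨hxy, rfl⟩
    · rintro ⟨h, rfl⟩
      exact ⟨(a, b), h, rfl⟩
  have htc : t.card = E.card := by
    rw [ht]
    apply card_image_of_injective
    rintro ⟨x, y⟩ ⟨x', y'⟩ h
    simp only [Prod.mk.injEq] at h
    exact Prod.ext h.1 h.2.1
  have hED : ExplicitDisjoint t := by
    constructor
    · intro a b c a' h1 h2
      rw [hmem] at h1 h2
      exact (hr b).1 (h1.2.symm.trans h2.2)
    · intro a b c b' h1 h2
      rw [hmem] at h1 h2
      exact (hl a).1 (h1.2.symm.trans h2.2)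
    · intro a b c c' h1 h2
      rw [hmem] at h1 h2
      exact h1.2.trans h2.2.symm
  have hfar : (graph t).FarFromTriangleFree (ε / 9) := by
    refine farFromTriangleFree t ?_
    rw [htc]
    refine le_trans (le_of_eq ?_) hE
    push_cast
    ring
  have hcl := hfar.le_card_cliqueFinset
  have hcard3 : (Fintype.card (A ⊕ A ⊕ A) : ℝ) = 3 * Fintype.card A := by
    rw [Fintype.card_sum, Fintype.card_sum]
    push_cast
    ring
  rw [hcard3] at hcl
  have hsub : (graph t).cliqueFinset 3 ⊆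
      (univ.filter fun t : A × A × A => ∀ k, cell3 mul hl hr k t ∈ E).image toTriangle := by
    intro s hs
    rw [mem_cliqueFinset_iff, is3Clique_iff] at hs
    obtain ⟨x, y, z, hxy, hxz, hyz, rfl⟩ := hs
    obtain ⟨a, b, c, habc, hab, hac, hbc⟩ := graph_triple hxy hxz hyz
    refine mem_image.mpr ⟨(a, b, c), mem_filter.mpr ⟨mem_univ _, ?_⟩, ?_⟩
    · obtain ⟨c', h1⟩ := Graph.in₀₁_iff.1 hab
      obtain ⟨b', h2⟩ := Graph.in₀₂_iff.1 hac
      obtain ⟨a', h3⟩ := Graph.in₁₂_iff.1 hbc
      rw [hmem] at h1 h2 h3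
      have hb' : ldiv mul hl a c = b' := (hl a).1 ((mul_ldiv mul hl a c).trans h2.2)
      have ha' : rdiv mul hr c b = a' := (hr b).1 ((rdiv_mul mul hr c b).trans h3.2)
      intro k
      unfold cell3
      split_ifs
      · rw [hb']; exact h2.1
      · rw [ha']; exact h3.1
      · exact h1.1
    · exact habc
  have hcl2 : ((graph t).cliqueFinset 3).card ≤
      (univ.filter fun t : A × A × A => ∀ k, cell3 mul hl hr k t ∈ E).card :=
    (card_le_card hsub).trans card_image_le
  have hdeg : (univ.filter fun t : A × A × A => mul t.1 t.2.1 = t.2.2).card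
      ≤ Fintype.card A ^ 2 := by
    have h1 : (univ.filter fun t : A × A × A => mul t.1 t.2.1 = t.2.2) ⊆
        (univ : Finset (A × A)).image (fun p => (p.1, p.2, mul p.1 p.2)) := by
      rintro ⟨a, b, c⟩ h
      rw [mem_filter] at h
      simp only [mem_univ, true_and] at h
      exact mem_image.mpr ⟨(a, b), mem_univ _, by rw [← h]⟩
    refine (card_le_card h1).trans (card_image_le.trans ?_)
    rw [card_univ, Fintype.card_prod, sq]
  have hsplit : (univ.filter fun t : A × A × A => ∀ k, cell3 mul hl hr k t ∈ E).card ≤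
      (univ.filter fun t : A × A × A => mul t.1 t.2.1 ≠ t.2.2 ∧
          ∀ k, cell3 mul hl hr k t ∈ E).card +
      (univ.filter fun t : A × A × A => mul t.1 t.2.1 = t.2.2).card := by
    refine le_trans (card_le_card ?_) (card_union_le _ _)
    intro t h
    rw [mem_filter] at h
    by_cases h' : mul t.1 t.2.1 = t.2.2
    · exact mem_union_right _ (mem_filter.mpr ⟨mem_univ _, h'⟩)
    · exact mem_union_left _ (mem_filter.mpr ⟨mem_univ _, h', h.2⟩)
  have hnR : 2 / δ₀ ≤ (Fintype.card A : ℝ) := (Nat.le_ceil _).trans (by exact_mod_cast hn)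
  have hn2 : 2 ≤ δ₀ * Fintype.card A := by
    rw [div_le_iff₀ hδ₀pos] at hnR
    linarith
  have hfin : triangleRemovalBound (ε / 9) * (3 * (Fintype.card A : ℝ)) ^ 3 ≤
      ((univ.filter fun t : A × A × A => mul t.1 t.2.1 ≠ t.2.2 ∧
          ∀ k, cell3 mul hl hr k t ∈ E).card : ℝ) + (Fintype.card A : ℝ) ^ 2 := by
    refine hcl.trans ?_
    have := hcl2.trans (hsplit.trans (Nat.add_le_add_left hdeg _))
    exact_mod_cast this
  have h3 : triangleRemovalBound (ε / 9) * (3 * (Fintype.card A : ℝ)) ^ 3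
      = δ₀ * (Fintype.card A : ℝ) ^ 3 := by rw [hδ₀]; ring
  rw [h3] at hfin
  have h4 : 2 * (Fintype.card A : ℝ) ^ 2 ≤ δ₀ * (Fintype.card A : ℝ) ^ 3 := by
    have h5 : 0 ≤ (Fintype.card A : ℝ) ^ 2 := by positivity
    nlinarith
  linarith

/-- the cells of the family of corners with row `a`, column `b` and symbols `c k` -/
noncomputable def cellt {A : Type v} (mul : A → A → A) (hl : ∀ a, Function.Bijective (mul a))
    (hr : ∀ b, Function.Bijective (fun a => mul a b)) {t : ℕ} (κ : Option (Bool × Fin t))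
    (θ : A × A × (Fin t → A)) : A × A :=
  κ.elim (θ.1, θ.2.1) (fun p => if p.1 then (rdiv mul hr (θ.2.2 p.2) θ.2.1, θ.2.1)
    else (θ.1, ldiv mul hl θ.1 (θ.2.2 p.2)))

/-- non-injective functions -/
theorem card_not_injective (A : Type v) [Fintype A] [DecidableEq A] (t : ℕ) :
    (univ.filter fun c : Fin (t + 1) → A => ¬ Function.Injective c).card
      ≤ (t + 1) ^ 2 * Fintype.card A ^ t := by
  have h1 : (univ.filter fun c : Fin (t + 1) → A => ¬ Function.Injective c) ⊆
      (univ.filter fun p : Fin (t + 1) × Fin (t + 1) => p.1 ≠ p.2).biUnion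
        (fun p => univ.filter fun c : Fin (t + 1) → A => c p.1 = c p.2) := by
    intro c hc
    rw [mem_filter] at hc
    have h := hc.2
    unfold Function.Injective at h
    push Not at h
    obtain ⟨i, j, hij, hne⟩ := h
    exact mem_biUnion.mpr ⟨(i, j), mem_filter.mpr ⟨mem_univ _, hne⟩, mem_filter.mpr ⟨mem_univ _, hij⟩⟩
  have h2 : ∀ p ∈ (univ.filter fun p : Fin (t + 1) × Fin (t + 1) => p.1 ≠ p.2),
      (univ.filter fun c : Fin (t + 1) → A => c p.1 = c p.2).card ≤ Fintype.card A ^ t := by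
    rintro ⟨i, j⟩ hp
    have hne : i ≠ j := (mem_filter.mp hp).2
    have hinj : Set.InjOn (fun (c : Fin (t + 1) → A) (k : Fin t) => c (i.succAbove k))
        (univ.filter fun c : Fin (t + 1) → A => c i = c j : Finset (Fin (t + 1) → A)) := by
      intro c hc c' hc' h
      have hc1 : c i = c j := (mem_filter.mp hc).2
      have hc2 : c' i = c' j := (mem_filter.mp hc').2
      have h3 : ∀ k, k ≠ i → c k = c' k := by
        intro k hk
        obtain ⟨l, rfl⟩ := Fin.exists_succAbove_eq hk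
        exact congrFun h l
      funext k
      by_cases hk : k = i
      · rw [hk, hc1, hc2]
        exact h3 j hne.symm
      · exact h3 k hk
    rw [← card_image_of_injOn hinj]
    refine (card_le_univ _).trans (le_of_eq ?_)
    simp
  refine (card_le_card h1).trans (card_biUnion_le.trans ((sum_le_sum h2).trans ?_))
  rw [sum_const, smul_eq_mul]
  refine Nat.mul_le_mul_right _ ((card_le_univ _).trans (le_of_eq ?_))
  rw [Fintype.card_prod, Fintype.card_fin, sq]

theorem stars (t : ℕ) (ε : ℝ) (hε : 0 < ε) : ∃ δ : ℝ, 0 < δ ∧ ∃ n₀ : ℕ,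
    ∀ (A : Type v) [Fintype A] [DecidableEq A] (mul : A → A → A)
      (hl : ∀ a, Function.Bijective (mul a)) (hr : ∀ b, Function.Bijective (fun a => mul a b)),
      n₀ ≤ Fintype.card A → ∀ E : Finset (A × A), ε * (Fintype.card A : ℝ) ^ 2 ≤ E.card →
      δ * (Fintype.card A : ℝ) ^ (t + 1 + 2) ≤
        ((univ.filter fun θ : A × A × (Fin (t + 1) → A) =>
          (Function.Injective θ.2.2 ∧ ∀ k, mul θ.1 θ.2.1 ≠ θ.2.2 k) ∧
          ∀ κ, cellt mul hl hr κ θ ∈ E).card : ℝ) := by
  obtain ⟨δ₁, hδ₁, n₁, h1⟩ := corners.{v} ε hε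
  refine ⟨δ₁ ^ (t + 1) / 2, by positivity, max (n₁ + 1) ⌈2 * ((t : ℝ) + 1) ^ 2 / δ₁ ^ (t + 1)⌉₊, ?_⟩
  intro A _ _ mul hl hr hn E hE
  have hn1 : n₁ ≤ Fintype.card A := by
    have := (le_max_left _ _).trans hn
    omega
  have hn0 : 0 < Fintype.card A := by
    have := (le_max_left _ _).trans hn
    omega
  have hn2 : 2 * ((t : ℝ) + 1) ^ 2 ≤ δ₁ ^ (t + 1) * Fintype.card A := by
    have h2 : 2 * ((t : ℝ) + 1) ^ 2 / δ₁ ^ (t + 1) ≤ Fintype.card A :=
      (Nat.le_ceil _).trans (by exact_mod_cast (le_max_right _ _).trans hn)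
    rw [div_le_iff₀ (by positivity)] at h2
    linarith
  set n : ℝ := (Fintype.card A : ℝ) with hnd
  have hnpos : 0 < n := by rw [hnd]; exact_mod_cast hn0
  have hcor := h1 A mul hl hr hn1 E hE
  set P : A × A → A → Prop := fun p c => mul p.1 p.2 ≠ c ∧ ∀ k, cell3 mul hl hr k (p.1, p.2, c) ∈ E
    with hP
  set f : A × A → ℕ := fun p => (univ.filter fun c => P p c).card with hf
  have hsum : ((univ.filter fun t : A × A × A => mul t.1 t.2.1 ≠ t.2.2 ∧
          ∀ k, cell3 mul hl hr k t ∈ E).card) = ∑ p, f p := by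
    rw [hf]
    simp only [card_filter]
    rw [Fintype.sum_prod_type, Fintype.sum_prod_type]
    simp only [Fintype.sum_prod_type]
    rfl
  rw [hsum] at hcor
  push_cast at hcor
  -- power means
  have hpow : (δ₁ ^ (t + 1)) * n ^ (t + 1 + 2) ≤ ∑ p, (f p : ℝ) ^ (t + 1) := by
    have h3 := pow_sum_div_card_le_sum_pow (s := (univ : Finset (A × A))) (f := fun p => (f p : ℝ))
      (fun p _ => Nat.cast_nonneg _) t
    rw [card_univ, Fintype.card_prod] at h3
    push_cast at h3
    refine le_trans ?_ h3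
    rw [le_div_iff₀ (by positivity)]
    calc δ₁ ^ (t + 1) * n ^ (t + 1 + 2) * (n * n) ^ t = (δ₁ * n ^ 3) ^ (t + 1) := by ring
      _ ≤ (∑ p, (f p : ℝ)) ^ (t + 1) := by
          refine pow_le_pow_left₀ (by positivity) hcor _
  have hfp : ∀ p, (f p) ^ (t + 1) = (univ.filter fun c : Fin (t + 1) → A => ∀ k, P p (c k)).card := by
    intro p
    have h4 : (univ.filter fun c : Fin (t + 1) → A => ∀ k, P p (c k))
        = Fintype.piFinset (fun _ : Fin (t + 1) => univ.filter fun c => P p c) := by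
      ext c
      simp
    rw [h4, Fintype.card_piFinset]
    simp [hf]
  have hall : ∑ p, (f p) ^ (t + 1) = (univ.filter fun θ : A × A × (Fin (t + 1) → A) =>
      ∀ k, P (θ.1, θ.2.1) (θ.2.2 k)).card := by
    rw [sum_congr rfl (fun p _ => hfp p)]
    simp only [card_filter]
    rw [Fintype.sum_prod_type, Fintype.sum_prod_type]
    simp only [Fintype.sum_prod_type]
  have hbad : (univ.filter fun θ : A × A × (Fin (t + 1) → A) => ¬ Function.Injective θ.2.2).card
      ≤ Fintype.card A * (Fintype.card A * ((t + 1) ^ 2 * Fintype.card A ^ t)) := by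
    have h5 : (univ.filter fun θ : A × A × (Fin (t + 1) → A) => ¬ Function.Injective θ.2.2)
        = univ ×ˢ (univ ×ˢ (univ.filter fun c : Fin (t + 1) → A => ¬ Function.Injective c)) := by
      ext θ
      simp
    rw [h5, card_product, card_product, card_univ]
    exact Nat.mul_le_mul_left _ (Nat.mul_le_mul_left _ (card_not_injective A t))
  have hsplit : (univ.filter fun θ : A × A × (Fin (t + 1) → A) =>
      ∀ k, P (θ.1, θ.2.1) (θ.2.2 k)).card ≤
      (univ.filter fun θ : A × A × (Fin (t + 1) → A) =>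
          (Function.Injective θ.2.2 ∧ ∀ k, mul θ.1 θ.2.1 ≠ θ.2.2 k) ∧
          ∀ κ, cellt mul hl hr κ θ ∈ E).card +
      (univ.filter fun θ : A × A × (Fin (t + 1) → A) => ¬ Function.Injective θ.2.2).card := by
    refine le_trans (card_le_card ?_) (card_union_le _ _)
    intro θ h
    rw [mem_filter] at h
    by_cases h' : Function.Injective θ.2.2
    · refine mem_union_left _ (mem_filter.mpr ⟨mem_univ _, ⟨h', fun k => (h.2 k).1⟩, ?_⟩)
      intro κ
      rcases κ with _ | ⟨b, k⟩
      · have := (h.2 0).2 0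
        simpa [cell3, cellt] using this
      · cases b
        · have := (h.2 k).2 1
          simpa [cell3, cellt] using this
        · have := (h.2 k).2 2
          simpa [cell3, cellt] using this
    · exact mem_union_right _ (mem_filter.mpr ⟨mem_univ _, h'⟩)
  rw [← hall] at hsplit
  have hsplitR : ∑ p, (f p : ℝ) ^ (t + 1) ≤
      ((univ.filter fun θ : A × A × (Fin (t + 1) → A) =>
          (Function.Injective θ.2.2 ∧ ∀ k, mul θ.1 θ.2.1 ≠ θ.2.2 k) ∧
          ∀ κ, cellt mul hl hr κ θ ∈ E).card : ℝ) +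
      n * (n * (((t : ℝ) + 1) ^ 2 * n ^ t)) := by
    have := hsplit.trans (Nat.add_le_add_left hbad _)
    have h6 : ((∑ p, (f p) ^ (t + 1) : ℕ) : ℝ) ≤ (((univ.filter fun θ : A × A × (Fin (t + 1) → A) =>
          (Function.Injective θ.2.2 ∧ ∀ k, mul θ.1 θ.2.1 ≠ θ.2.2 k) ∧
          ∀ κ, cellt mul hl hr κ θ ∈ E).card +
          Fintype.card A * (Fintype.card A * ((t + 1) ^ 2 * Fintype.card A ^ t)) : ℕ) : ℝ) := by
      exact_mod_cast this
    push_cast at h6
    exact h6
  have h7 : n * (n * (((t : ℝ) + 1) ^ 2 * n ^ t)) ≤ δ₁ ^ (t + 1) / 2 * n ^ (t + 1 + 2) := by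
    calc n * (n * (((t : ℝ) + 1) ^ 2 * n ^ t)) = (2 * ((t : ℝ) + 1) ^ 2) * n ^ (t + 2) / 2 := by ring
      _ ≤ (δ₁ ^ (t + 1) * n) * n ^ (t + 2) / 2 := by gcongr
      _ = δ₁ ^ (t + 1) / 2 * n ^ (t + 1 + 2) := by ring
  linarith

end Pool.Agent.Y426.BES
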