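import Pool.Agent.Y426.BES.Corner

/-!
# Corners in several coordinates simultaneously
-/

set_option autoImplicit false

open Finset

namespace Pool.Agent.Y426.BES

universe u v w

theorem fubini {ι : Type u} [DecidableEq ι] [Fintype ι] {B : ι → Type w} [∀ i, Fintype (B i)]
    (j : ι) (g : (∀ i, B i) → ℝ) :
    ∑ b : ∀ i, B i, ∑ y : B j, g (Function.update b j y)
      = Fintype.card (B j) * ∑ b : ∀ i, B i, g b := by
  classical
  rw [← Fintype.sum_prod_type' (f := fun (b : ∀ i, B i) (y : B j) => g (Function.update b j y))]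
  have hinv : Function.Involutive (fun p : (∀ i, B i) × B j => (Function.update p.1 j p.2, p.1 j)) := by
    rintro ⟨b, y⟩
    simp
  rw [← Equiv.sum_comp (hinv.toPerm _)]
  have h1 : ∀ p : (∀ i, B i) × B j,
      g (Function.update ((hinv.toPerm _ p).1) j ((hinv.toPerm _ p).2)) = g p.1 := by
    rintro ⟨b, y⟩
    have : (hinv.toPerm _ (b, y)) = (Function.update b j y, b j) := rfl
    rw [this]
    simp
  rw [sum_congr rfl (fun p _ => h1 p), Fintype.sum_prod_type]
  simp only [sum_const, card_univ, nsmul_eq_mul]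
  rw [mul_sum]

/-- the event that the families of corners at the coordinates in `S` are all non-degenerate and that
all cells obtained by choosing a cell of the family at each coordinate in `S` belong to `H` -/
def Ev {ι : Type u} [DecidableEq ι] {A : ι → Type v} (mul : ∀ i, A i → A i → A i)
    (hl : ∀ i a, Function.Bijective (mul i a)) (hr : ∀ i b, Function.Bijective (fun a => mul i a b))
    (t : ℕ) (S : Finset ι) (H : Finset (∀ i, A i × A i)) (θ : ∀ i, A i × A i × (Fin (t + 1) → A i))
    (b : ∀ i, A i × A i) : Prop :=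
  (∀ i ∈ S, Function.Injective (θ i).2.2 ∧ ∀ k, mul i (θ i).1 (θ i).2.1 ≠ (θ i).2.2 k) ∧
    ∀ w : ι → Option (Bool × Fin (t + 1)),
      (fun i => if i ∈ S then cellt (mul i) (hl i) (hr i) (w i) (θ i) else b i) ∈ H

theorem tensor (t m : ℕ) : ∀ ε : ℝ, 0 < ε → ∃ δ : ℝ, 0 < δ ∧ ∃ n₀ : ℕ,
    ∀ (ι : Type u) [Fintype ι] [DecidableEq ι] (A : ι → Type v) [∀ i, Fintype (A i)]
      (mul : ∀ i, A i → A i → A i)
      (hl : ∀ i a, Function.Bijective (mul i a)) (hr : ∀ i b, Function.Bijective (fun a => mul i a b))
      (S : Finset ι) (H : Finset (∀ i, A i × A i)), S.card = m →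
      (∀ i ∈ S, n₀ ≤ Fintype.card (A i)) →
      ε * (Fintype.card (∀ i, A i × A i) : ℝ) ≤ H.card →
      δ * ((Fintype.card (∀ i, A i × A i × (Fin (t + 1) → A i)) : ℝ) * Fintype.card (∀ i, A i × A i)) ≤
        ∑ θ : ∀ i, A i × A i × (Fin (t + 1) → A i), ∑ b : ∀ i, A i × A i,
          Set.indicator {b | Ev mul hl hr t S H θ b} (fun _ => (1 : ℝ)) b := by
  classical
  induction m with
  | zero =>
    intro ε hε
    refine ⟨ε, hε, 0, ?_⟩
    intro ι _ _ A _ mul hl hr S H hS _ hH
    rw [card_eq_zero] at hS
    subst hS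
    have h1 : ∀ θ : ∀ i, A i × A i × (Fin (t + 1) → A i), ∑ b : ∀ i, A i × A i,
          Set.indicator {b | Ev mul hl hr t ∅ H θ b} (fun _ => (1 : ℝ)) b = H.card := by
      intro θ
      have h2 : {b | Ev mul hl hr t ∅ H θ b} = (H : Set (∀ i, A i × A i)) := by
        ext b
        simp [Ev]
      rw [h2]
      simp [Set.indicator_apply]
    rw [sum_congr rfl (fun θ _ => h1 θ), sum_const, card_univ, nsmul_eq_mul]
    have h3 : (0 : ℝ) ≤ Fintype.card (∀ i, A i × A i × (Fin (t + 1) → A i)) := Nat.cast_nonneg _
    nlinarith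
  | succ m ih =>
    intro ε hε
    obtain ⟨c, hc, n₁, h1⟩ := ih ε hε
    obtain ⟨δ, hδ, n₂, h2⟩ := stars.{v} t (c / 2) (by positivity)
    refine ⟨c / 2 * δ, by positivity, max n₁ n₂, ?_⟩
    intro ι _ _ A _ mul hl hr S H hS hbig hH
    obtain ⟨j, S', hj, rfl, hS'⟩ := card_eq_succ.mp hS
    have hbig' : ∀ i ∈ S', n₁ ≤ Fintype.card (A i) := fun i hi =>
      (le_max_left _ _).trans (hbig i (mem_insert_of_mem hi))
    have hbigj : n₂ ≤ Fintype.card (A j) := (le_max_right _ _).trans (hbig j (mem_insert_self _ _))
    have h3 := h1 ι A mul hl hr S' H hS' hbig' hH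
    -- abbreviations
    set f : (∀ i, A i × A i × (Fin (t + 1) → A i)) → (∀ i, A i × A i) → ℝ := fun θ b =>
      Set.indicator {b | Ev mul hl hr t S' H θ b} (fun _ => (1 : ℝ)) b with hf
    set g : (∀ i, A i × A i × (Fin (t + 1) → A i)) → (∀ i, A i × A i) → ℝ := fun θ b =>
      Set.indicator {b | Ev mul hl hr t (insert j S') H θ b} (fun _ => (1 : ℝ)) b with hg
    have hf01 : ∀ θ b, f θ b ≤ 1 := by
      intro θ b
      rw [hf]
      simp only [Set.indicator_apply]
      split_ifs <;> norm_num
    -- pointwise inequality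
    set X : (∀ i, A i × A i × (Fin (t + 1) → A i)) → (∀ i, A i × A i) → ℝ := fun θ b =>
      ∑ y : A j × A j, f θ (Function.update b j y) with hX
    set Z : (∀ i, A i × A i × (Fin (t + 1) → A i)) → (∀ i, A i × A i) → ℝ := fun θ b =>
      ∑ z : A j × A j × (Fin (t + 1) → A j), g (Function.update θ j z) b with hZ
    have hkey : ∀ θ b, δ * (Fintype.card (A j) : ℝ) ^ (t + 1 + 2) *
        (X θ b - c / 2 * (Fintype.card (A j) : ℝ) ^ 2) ≤ Z θ b * (Fintype.card (A j) : ℝ) ^ 2 := by
      intro θ b
      have hZ0 : 0 ≤ Z θ b := by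
        rw [hZ]
        refine sum_nonneg fun z _ => ?_
        rw [hg]
        exact Set.indicator_nonneg (fun _ _ => zero_le_one) _
      have hXle : X θ b ≤ (Fintype.card (A j) : ℝ) ^ 2 := by
        rw [hX]
        calc ∑ y : A j × A j, f θ (Function.update b j y) ≤ ∑ y : A j × A j, (1 : ℝ) :=
              sum_le_sum fun y _ => hf01 _ _
          _ = (Fintype.card (A j) : ℝ) ^ 2 := by
              rw [sum_const, card_univ, Fintype.card_prod, nsmul_eq_mul]
              push_cast
              ring
      by_cases hsm : X θ b < c / 2 * (Fintype.card (A j) : ℝ) ^ 2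
      · have : δ * (Fintype.card (A j) : ℝ) ^ (t + 1 + 2) *
            (X θ b - c / 2 * (Fintype.card (A j) : ℝ) ^ 2) ≤ 0 :=
          mul_nonpos_of_nonneg_of_nonpos (by positivity) (by linarith)
        refine this.trans (by positivity)
      · push Not at hsm
        set E : Finset (A j × A j) := univ.filter fun y => Ev mul hl hr t S' H θ (Function.update b j y)
          with hE
        have hEX : X θ b = E.card := by
          rw [hX, hE]
          simp only [hf, Set.indicator_apply, Set.mem_ofPred_eq, card_filter]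
          push_cast
          rfl
        have h4 := h2 (A j) (mul j) (hl j) (hr j) hbigj E (by rw [← hEX]; exact hsm)
        have h5 : ((univ.filter fun θ : A j × A j × (Fin (t + 1) → A j) =>
            (Function.Injective θ.2.2 ∧ ∀ k, mul j θ.1 θ.2.1 ≠ θ.2.2 k) ∧
            ∀ κ, cellt (mul j) (hl j) (hr j) κ θ ∈ E).card : ℝ) ≤ Z θ b := by
          rw [hZ, card_filter]
          push_cast
          refine sum_le_sum fun z _ => ?_
          split_ifs with h
          · obtain ⟨hnd, hall⟩ := h
            have hEv : Ev mul hl hr t (insert j S') H (Function.update θ j z) b := by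
              refine ⟨?_, ?_⟩
              · intro i hi
                rcases mem_insert.mp hi with rfl | hi'
                · simpa using hnd
                · have hij : i ≠ j := fun h => hj (h ▸ hi')
                  rw [Function.update_of_ne hij]
                  have h6 := hall none
                  rw [hE, mem_filter] at h6
                  exact h6.2.1 i hi'
              · intro w
                have h6 := hall (w j)
                rw [hE, mem_filter] at h6
                have h7 := h6.2.2 w
                convert h7 using 2 with i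
                by_cases hij : i = j
                · subst hij
                  simp [hj]
                · simp [hij]
            rw [hg]
            simp only [Set.indicator_apply, Set.mem_ofPred_eq]
            rw [if_pos hEv]
          · rw [hg]
            exact Set.indicator_nonneg (fun _ _ => zero_le_one) _
        have h6 : δ * (Fintype.card (A j) : ℝ) ^ (t + 1 + 2) ≤ Z θ b := h4.trans h5
        have h7 : X θ b - c / 2 * (Fintype.card (A j) : ℝ) ^ 2 ≤ (Fintype.card (A j) : ℝ) ^ 2 := by
          have : 0 ≤ c / 2 * (Fintype.card (A j) : ℝ) ^ 2 := by positivity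
          linarith
        calc δ * (Fintype.card (A j) : ℝ) ^ (t + 1 + 2) * (X θ b - c / 2 * (Fintype.card (A j) : ℝ) ^ 2)
            ≤ δ * (Fintype.card (A j) : ℝ) ^ (t + 1 + 2) * (Fintype.card (A j) : ℝ) ^ 2 := by gcongr
          _ ≤ Z θ b * (Fintype.card (A j) : ℝ) ^ 2 := by gcongr
    -- sum over everything
    have hsumX : ∑ θ, ∑ b, X θ b = (Fintype.card (A j) : ℝ) ^ 2 * ∑ θ, ∑ b, f θ b := by
      rw [mul_sum]
      refine sum_congr rfl fun θ _ => ?_
      rw [hX]
      have := fubini (B := fun i => A i × A i) j (fun b => f θ b)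
      rw [this, Fintype.card_prod]
      push_cast
      ring
    have hsumZ : ∑ θ, ∑ b, Z θ b = (Fintype.card (A j) : ℝ) ^ (t + 1 + 2) * ∑ θ, ∑ b, g θ b := by
      rw [sum_comm, sum_comm (f := fun θ b => g θ b), mul_sum]
      refine sum_congr rfl fun b _ => ?_
      rw [hZ]
      have := fubini (B := fun i => A i × A i × (Fin (t + 1) → A i)) j (fun θ => g θ b)
      rw [this, Fintype.card_prod, Fintype.card_prod, Fintype.card_fun, Fintype.card_fin]
      push_cast
      ring
    have hsum := sum_le_sum (s := (univ : Finset (∀ i, A i × A i × (Fin (t + 1) → A i))))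
      (fun θ _ => sum_le_sum (s := (univ : Finset (∀ i, A i × A i))) (fun b _ => hkey θ b))
    simp only [← mul_sum, ← sum_mul, sum_sub_distrib, sum_const, card_univ, nsmul_eq_mul] at hsum
    rw [hsumX, hsumZ] at hsum
    rcases Nat.eq_zero_or_pos (Fintype.card (A j)) with h0 | hpos
    · -- an empty factor
      have he : IsEmpty (A j) := Fintype.card_eq_zero_iff.mp h0
      have : IsEmpty (∀ i, A i × A i × (Fin (t + 1) → A i)) := ⟨fun θ => he.elim (θ j).1⟩
      simp
    have hnpos : (0 : ℝ) < Fintype.card (A j) := by exact_mod_cast hpos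
    set n : ℝ := (Fintype.card (A j) : ℝ) with hn
    set M : ℝ := (Fintype.card (∀ i, A i × A i × (Fin (t + 1) → A i)) : ℝ) with hM
    set L : ℝ := (Fintype.card (∀ i, A i × A i) : ℝ) with hL
    set F : ℝ := ∑ θ, ∑ b, f θ b with hF
    set G : ℝ := ∑ θ, ∑ b, g θ b with hG
    have h8 : c * (M * L) ≤ F := h3
    have h9 : n ^ (t + 5) * (δ * (F - c / 2 * (M * L))) ≤ n ^ (t + 5) * G := by
      calc n ^ (t + 5) * (δ * (F - c / 2 * (M * L)))
          = δ * n ^ (t + 1 + 2) * (n ^ 2 * F - c / 2 * (L * (M * n ^ 2))) := by ring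
        _ ≤ n ^ (t + 1 + 2) * G * n ^ 2 := hsum
        _ = n ^ (t + 5) * G := by ring
    have h10 : δ * (F - c / 2 * (M * L)) ≤ G := le_of_mul_le_mul_left h9 (by positivity)
    calc c / 2 * δ * (M * L) = δ * (c * (M * L) - c / 2 * (M * L)) := by ring
      _ ≤ δ * (F - c / 2 * (M * L)) := by gcongr
      _ ≤ G := h10

end Pool.Agent.Y426.BES
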