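import Mathlib

/-!
# Sparse sets of words over three letters
-/

set_option autoImplicit false

open Finset

namespace Pool.Agent.Y426.BES

/-- the set of positions of the letter `2` -/
def wR {m : ℕ} (a : Fin m → Fin 3) : Fin m → Bool := fun e => decide (a e = 2)

/-- the set of positions of the letter `1` -/
def wC {m : ℕ} (a : Fin m → Fin 3) : Fin m → Bool := fun e => decide (a e = 1)

/-- the set of positions of the letter `0` -/
def wS {m : ℕ} (a : Fin m → Fin 3) : Fin m → Bool := fun e => decide (a e = 0)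

/-- the number of position sets of a set of words -/
def span {m : ℕ} (T : Finset (Fin m → Fin 3)) : ℕ :=
  (T.image wR).card + (T.image wC).card + (T.image wS).card

def chainA : List (Fin 2 → Fin 3) :=
  [![0, 1], ![0, 2], ![1, 0], ![1, 2], ![2, 0], ![2, 1], ![0, 0], ![1, 1], ![2, 2]]

def chainB : List (Fin 3 → Fin 3) :=
  [![1, 0, 0], ![2, 0, 0], ![2, 1, 0], ![1, 2, 0], ![0, 0, 1], ![2, 0, 1], ![0, 2, 1], ![0, 0, 2],
    ![1, 0, 2], ![0, 1, 2], ![0, 2, 2], ![0, 1, 0], ![0, 1, 1], ![2, 0, 2], ![0, 2, 0], ![2, 1, 1],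
    ![2, 2, 2], ![1, 0, 1], ![2, 1, 2], ![0, 0, 0], ![1, 1, 0], ![1, 2, 2], ![1, 1, 2], ![1, 2, 1],
    ![2, 2, 1], ![2, 2, 0], ![1, 1, 1]]

theorem baseA1 : ∀ e ∈ Finset.Icc 1 5,
    (chainA.take e).toFinset.card = e ∧ span (chainA.take e).toFinset ≤ e + 4 := by
  decide +kernel

theorem baseA2 : ∀ e ∈ Finset.Icc 6 9,
    (chainA.take e).toFinset.card = e ∧ span (chainA.take e).toFinset ≤ e + 3 := by
  decide +kernel

theorem baseB : ∀ e ∈ Finset.Icc 10 27,
    (chainB.take e).toFinset.card = e ∧ span (chainB.take e).toFinset ≤ e + 3 := by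
  decide +kernel

theorem wR_cons {m : ℕ} (s : Fin 3) (a : Fin m → Fin 3) :
    wR (Fin.cons s a : Fin (m + 1) → Fin 3) = (Fin.cons (decide (s = 2)) (wR a) : Fin (m + 1) → Bool) := by
  funext e
  refine Fin.cases ?_ (fun e => ?_) e <;> simp [wR]

theorem wC_cons {m : ℕ} (s : Fin 3) (a : Fin m → Fin 3) :
    wC (Fin.cons s a : Fin (m + 1) → Fin 3) = (Fin.cons (decide (s = 1)) (wC a) : Fin (m + 1) → Bool) := by
  funext e
  refine Fin.cases ?_ (fun e => ?_) e <;> simp [wC]

theorem wS_cons {m : ℕ} (s : Fin 3) (a : Fin m → Fin 3) :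
    wS (Fin.cons s a : Fin (m + 1) → Fin 3) = (Fin.cons (decide (s = 0)) (wS a) : Fin (m + 1) → Bool) := by
  funext e
  refine Fin.cases ?_ (fun e => ?_) e <;> simp [wS]

theorem cons_inj {m : ℕ} {X : Type} (s : X) :
    Function.Injective (fun a : Fin m → X => (Fin.cons s a : Fin (m + 1) → X)) := by
  intro a b h
  funext e
  have := congrFun h e.succ
  simpa using this

theorem card_cons {m : ℕ} (s : Fin 3) (T : Finset (Fin m → Fin 3)) :
    (T.image (fun a => (Fin.cons s a : Fin (m + 1) → Fin 3))).card = T.card :=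
  card_image_of_injective _ (cons_inj s)

theorem span_cons {m : ℕ} (s : Fin 3) (T : Finset (Fin m → Fin 3)) :
    span (T.image (fun a => (Fin.cons s a : Fin (m + 1) → Fin 3))) = span T := by
  unfold span
  have hR : (T.image (fun a => (Fin.cons s a : Fin (m + 1) → Fin 3))).image wR
      = (T.image wR).image (fun b => (Fin.cons (decide (s = 2)) b : Fin (m + 1) → Bool)) := by
    rw [image_image, image_image]
    exact image_congr fun a _ => wR_cons s a
  have hC : (T.image (fun a => (Fin.cons s a : Fin (m + 1) → Fin 3))).image wC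
      = (T.image wC).image (fun b => (Fin.cons (decide (s = 1)) b : Fin (m + 1) → Bool)) := by
    rw [image_image, image_image]
    exact image_congr fun a _ => wC_cons s a
  have hS : (T.image (fun a => (Fin.cons s a : Fin (m + 1) → Fin 3))).image wS
      = (T.image wS).image (fun b => (Fin.cons (decide (s = 0)) b : Fin (m + 1) → Bool)) := by
    rw [image_image, image_image]
    exact image_congr fun a _ => wS_cons s a
  rw [hR, hC, hS, card_image_of_injective _ (cons_inj _), card_image_of_injective _ (cons_inj _),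
    card_image_of_injective _ (cons_inj _)]

theorem span_le {m : ℕ} (T : Finset (Fin m → Fin 3)) : span T ≤ 3 * 2 ^ m := by
  unfold span
  have h : ∀ X : Finset (Fin m → Bool), X.card ≤ 2 ^ m := by
    intro X
    refine (card_le_univ X).trans (le_of_eq ?_)
    simp
  have h1 := h (T.image wR)
  have h2 := h (T.image wC)
  have h3 := h (T.image wS)
  omega

/-- adding words with another first letter to all words with first letter `0` -/
theorem extend {m : ℕ} (T : Finset (Fin m → Fin 3)) (hT : T.Nonempty) :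
    ∃ U : Finset (Fin (m + 1) → Fin 3), U.card = 3 ^ m + T.card ∧
      span U + 1 ≤ 3 * 2 ^ m + span T := by
  classical
  refine ⟨univ.image (fun a => (Fin.cons 0 a : Fin (m + 1) → Fin 3)) ∪
    T.image (fun a => (Fin.cons 1 a : Fin (m + 1) → Fin 3)), ?_, ?_⟩
  · rw [card_union_of_disjoint, card_cons, card_cons]
    · simp
    · rw [disjoint_left]
      intro x h1 h2
      obtain ⟨a, -, rfl⟩ := mem_image.mp h1
      obtain ⟨b, -, hb⟩ := mem_image.mp h2
      have := congrFun hb 0
      simp at this
  · have hu : ∀ X : Finset (Fin m → Bool), X.card ≤ 2 ^ m := by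
      intro X
      refine (card_le_univ X).trans (le_of_eq ?_)
      simp
    have hR : ((univ.image (fun a => (Fin.cons 0 a : Fin (m + 1) → Fin 3)) ∪
        T.image (fun a => (Fin.cons 1 a : Fin (m + 1) → Fin 3))).image wR).card ≤ 2 ^ m := by
      refine le_trans (card_le_card (t := (univ : Finset (Fin m → Bool)).image
        (fun b => (Fin.cons false b : Fin (m + 1) → Bool))) ?_) (card_image_le.trans (hu _))
      intro x hx
      obtain ⟨y, hy, rfl⟩ := mem_image.mp hx
      rcases mem_union.mp hy with hy | hy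
      · obtain ⟨a, -, rfl⟩ := mem_image.mp hy
        exact mem_image.mpr ⟨wR a, mem_univ _, by rw [wR_cons]; rfl⟩
      · obtain ⟨a, -, rfl⟩ := mem_image.mp hy
        exact mem_image.mpr ⟨wR a, mem_univ _, by rw [wR_cons]; rfl⟩
    have hC : ((univ.image (fun a => (Fin.cons 0 a : Fin (m + 1) → Fin 3)) ∪
        T.image (fun a => (Fin.cons 1 a : Fin (m + 1) → Fin 3))).image wC).card
        ≤ 2 ^ m + (T.image wC).card := by
      refine le_trans (card_le_card (t := (univ : Finset (Fin m → Bool)).image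
        (fun b => (Fin.cons false b : Fin (m + 1) → Bool)) ∪ (T.image wC).image
        (fun b => (Fin.cons true b : Fin (m + 1) → Bool))) ?_)
        ((card_union_le _ _).trans (Nat.add_le_add (card_image_le.trans (hu _)) card_image_le))
      intro x hx
      obtain ⟨y, hy, rfl⟩ := mem_image.mp hx
      rcases mem_union.mp hy with hy | hy
      · obtain ⟨a, -, rfl⟩ := mem_image.mp hy
        exact mem_union_left _ (mem_image.mpr ⟨wC a, mem_univ _, by rw [wC_cons]; rfl⟩)
      · obtain ⟨a, ha, rfl⟩ := mem_image.mp hy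
        exact mem_union_right _ (mem_image.mpr ⟨wC a, mem_image_of_mem _ ha,
          by rw [wC_cons]; rfl⟩)
    have hS : ((univ.image (fun a => (Fin.cons 0 a : Fin (m + 1) → Fin 3)) ∪
        T.image (fun a => (Fin.cons 1 a : Fin (m + 1) → Fin 3))).image wS).card
        ≤ 2 ^ m + (T.image wS).card := by
      refine le_trans (card_le_card (t := (univ : Finset (Fin m → Bool)).image
        (fun b => (Fin.cons true b : Fin (m + 1) → Bool)) ∪ (T.image wS).image
        (fun b => (Fin.cons false b : Fin (m + 1) → Bool))) ?_)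
        ((card_union_le _ _).trans (Nat.add_le_add (card_image_le.trans (hu _)) card_image_le))
      intro x hx
      obtain ⟨y, hy, rfl⟩ := mem_image.mp hx
      rcases mem_union.mp hy with hy | hy
      · obtain ⟨a, -, rfl⟩ := mem_image.mp hy
        exact mem_union_left _ (mem_image.mpr ⟨wS a, mem_univ _, by rw [wS_cons]; rfl⟩)
      · obtain ⟨a, ha, rfl⟩ := mem_image.mp hy
        exact mem_union_right _ (mem_image.mpr ⟨wS a, mem_image_of_mem _ ha,
          by rw [wS_cons]; rfl⟩)
    have h1 : 1 ≤ (T.image wR).card := card_pos.mpr (hT.image _)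
    unfold span
    omega

theorem pow_bound (m : ℕ) (hm : 3 ≤ m) : 3 * 2 ^ m ≤ 3 ^ m := by
  induction m, hm using Nat.le_induction with
  | base => norm_num
  | succ m hm ih => rw [pow_succ, pow_succ]; omega

theorem words_aux (m : ℕ) (hm : 3 ≤ m) :
    (∀ e, 1 ≤ e → e ≤ 3 ^ m → ∃ T : Finset (Fin m → Fin 3), T.card = e ∧ span T ≤ e + 4) ∧
    (∀ e, 6 ≤ e → e ≤ 3 ^ m → ∃ T : Finset (Fin m → Fin 3), T.card = e ∧ span T ≤ e + 3) := by
  induction m, hm using Nat.le_induction with
  | base =>
    have key : ∀ e, 6 ≤ e → e ≤ 3 ^ 3 →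
        ∃ T : Finset (Fin 3 → Fin 3), T.card = e ∧ span T ≤ e + 3 := by
      intro e h1 h2
      rcases le_or_gt e 9 with h | h
      · obtain ⟨h3, h4⟩ := baseA2 e (Finset.mem_Icc.mpr ⟨h1, h⟩)
        exact ⟨_, (card_cons 0 _).trans h3, (span_cons 0 _).trans_le h4⟩
      · obtain ⟨h3, h4⟩ := baseB e (Finset.mem_Icc.mpr ⟨h, by simpa using h2⟩)
        exact ⟨_, h3, h4⟩
    refine ⟨fun e h1 h2 => ?_, key⟩
    rcases le_or_gt e 5 with h | h
    · obtain ⟨h3, h4⟩ := baseA1 e (Finset.mem_Icc.mpr ⟨h1, h⟩)
      exact ⟨_, (card_cons 0 _).trans h3, (span_cons 0 _).trans_le h4⟩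
    · obtain ⟨T, h3, h4⟩ := key e h h2
      exact ⟨T, h3, by omega⟩
  | succ m hm ih =>
    obtain ⟨ih1, ih2⟩ := ih
    have hp := pow_bound m hm
    have hbig : ∀ e, 3 ^ m < e → e ≤ 3 ^ (m + 1) →
        ∃ T : Finset (Fin (m + 1) → Fin 3), T.card = e ∧ span T ≤ e + 3 := by
      intro e h1 h2
      rcases le_or_gt e (2 * 3 ^ m) with h | h
      · obtain ⟨T, h3, h4⟩ := ih1 (e - 3 ^ m) (by omega) (by omega)
        obtain ⟨U, h5, h6⟩ := extend T (card_pos.mp (by omega))
        exact ⟨U, by omega, by omega⟩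
      · obtain ⟨T, -, hT⟩ := exists_subset_card_eq (s := (univ : Finset (Fin (m + 1) → Fin 3)))
          (n := e) (by simpa using h2)
        refine ⟨T, hT, (span_le T).trans ?_⟩
        rw [pow_succ]
        omega
    refine ⟨fun e h1 h2 => ?_, fun e h1 h2 => ?_⟩
    · rcases le_or_gt e (3 ^ m) with h | h
      · obtain ⟨T, h3, h4⟩ := ih1 e h1 h
        exact ⟨_, (card_cons 0 _).trans h3, (span_cons 0 _).trans_le h4⟩
      · obtain ⟨T, h3, h4⟩ := hbig e h h2
        exact ⟨T, h3, by omega⟩
    · rcases le_or_gt e (3 ^ m) with h | h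
      · obtain ⟨T, h3, h4⟩ := ih2 e h1 h
        exact ⟨_, (card_cons 0 _).trans h3, (span_cons 0 _).trans_le h4⟩
      · exact hbig e h h2

/-- for `m ≥ 2` and `6 ≤ e ≤ 3 ^ m` there are `e` words of length `m` over three letters with at
most `e + 3` position sets in total -/
theorem words (m e : ℕ) (hm : 2 ≤ m) (he : 6 ≤ e) (hem : e ≤ 3 ^ m) :
    ∃ T : Finset (Fin m → Fin 3), T.card = e ∧ span T ≤ e + 3 := by
  rcases Nat.lt_or_ge m 3 with h | h
  · obtain rfl : m = 2 := by omega
    obtain ⟨h3, h4⟩ := baseA2 e (Finset.mem_Icc.mpr ⟨he, by simpa using hem⟩)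
    exact ⟨_, h3, h4⟩
  · exact (words_aux m h).2 e he hem

/-- words in which each of the three letters occurs `M` times -/
theorem balanced (M : ℕ) : ∃ T : Finset (Fin (3 * M) → Fin 3),
    T.card = (3 * M).choose M * (2 * M).choose M ∧ span T ≤ 3 * (3 * M).choose M := by
  classical
  set D : Finset (Σ _ : Finset (Fin (3 * M)), Finset (Fin (3 * M))) :=
    (powersetCard M (univ : Finset (Fin (3 * M)))).sigma
      (fun U => powersetCard M (univ \ U)) with hD
  set φ : (Σ _ : Finset (Fin (3 * M)), Finset (Fin (3 * M))) → Fin (3 * M) → Fin 3 :=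
    fun d e => if e ∈ d.1 then 2 else if e ∈ d.2 then 1 else 0 with hφ
  have hDmem : ∀ d ∈ D, d.1.card = M ∧ d.2.card = M ∧ Disjoint d.1 d.2 := by
    intro d hd
    rw [hD, mem_sigma, mem_powersetCard, mem_powersetCard] at hd
    refine ⟨hd.1.2, hd.2.2, ?_⟩
    rw [disjoint_left]
    intro e h1 h2
    exact (mem_sdiff.mp (hd.2.1 h2)).2 h1
  have hR : ∀ d, wR (φ d) = fun e => decide (e ∈ d.1) := by
    intro d
    funext e
    by_cases h1 : e ∈ d.1 <;> by_cases h2 : e ∈ d.2 <;> simp [wR, hφ, h1, h2]
  have hC : ∀ d ∈ D, wC (φ d) = fun e => decide (e ∈ d.2) := by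
    intro d hd
    funext e
    have h3 := (hDmem d hd).2.2
    by_cases h1 : e ∈ d.1
    · have h2 : e ∉ d.2 := disjoint_left.mp h3 h1
      simp [wC, hφ, h1, h2]
    · by_cases h2 : e ∈ d.2 <;> simp [wC, hφ, h1, h2]
  have hS : ∀ d, wS (φ d) = fun e => decide (e ∉ d.1 ∪ d.2) := by
    intro d
    funext e
    by_cases h1 : e ∈ d.1 <;> by_cases h2 : e ∈ d.2 <;> simp [wS, hφ, h1, h2]
  refine ⟨D.image φ, ?_, ?_⟩
  · rw [card_image_of_injOn]
    · rw [hD, card_sigma]
      rw [sum_congr rfl (g := fun _ => (2 * M).choose M)]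
      · rw [sum_const, card_powersetCard, card_univ, Fintype.card_fin, smul_eq_mul]
      · intro U hU
        rw [mem_powersetCard] at hU
        rw [card_powersetCard, card_univ_sdiff, Fintype.card_fin, hU.2]
        congr 1
        omega
    · rintro ⟨U, W⟩ hd ⟨U', W'⟩ hd' h
      have h1 : U = U' := by
        have h2 := congrArg wR h
        rw [hR, hR] at h2
        ext e
        have := congrFun h2 e
        simpa using this
      have h1' : W = W' := by
        have h2 := congrArg wC h
        rw [hC _ hd, hC _ hd'] at h2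
        ext e
        have := congrFun h2 e
        simpa using this
      rw [h1, h1']
  · have h1 : ((D.image φ).image wR).card ≤ (3 * M).choose M := by
      refine le_trans (card_le_card (t := (powersetCard M (univ : Finset (Fin (3 * M)))).image
        (fun U e => decide (e ∈ U))) ?_) (card_image_le.trans (by
          rw [card_powersetCard, card_univ, Fintype.card_fin]))
      intro x hx
      obtain ⟨y, hy, rfl⟩ := mem_image.mp hx
      obtain ⟨d, hd, rfl⟩ := mem_image.mp hy
      rw [hR]
      exact mem_image.mpr ⟨d.1, mem_powersetCard.mpr ⟨subset_univ _, (hDmem d hd).1⟩, rfl⟩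
    have h2 : ((D.image φ).image wC).card ≤ (3 * M).choose M := by
      refine le_trans (card_le_card (t := (powersetCard M (univ : Finset (Fin (3 * M)))).image
        (fun U e => decide (e ∈ U))) ?_) (card_image_le.trans (by
          rw [card_powersetCard, card_univ, Fintype.card_fin]))
      intro x hx
      obtain ⟨y, hy, rfl⟩ := mem_image.mp hx
      obtain ⟨d, hd, rfl⟩ := mem_image.mp hy
      rw [hC d hd]
      exact mem_image.mpr ⟨d.2, mem_powersetCard.mpr ⟨subset_univ _, (hDmem d hd).2.1⟩, rfl⟩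
    have h3 : ((D.image φ).image wS).card ≤ (3 * M).choose M := by
      refine le_trans (card_le_card (t := (powersetCard (2 * M) (univ : Finset (Fin (3 * M)))).image
        (fun U e => decide (e ∉ U))) ?_) (card_image_le.trans (by
          rw [card_powersetCard, card_univ, Fintype.card_fin]
          apply le_of_eq
          have h1 : 3 * M - 2 * M = M := by omega
          rw [← Nat.choose_symm (show 2 * M ≤ 3 * M by omega), h1]))
      intro x hx
      obtain ⟨y, hy, rfl⟩ := mem_image.mp hx
      obtain ⟨d, hd, rfl⟩ := mem_image.mp hy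
      rw [hS]
      obtain ⟨h1, h2, h3⟩ := hDmem d hd
      refine mem_image.mpr ⟨d.1 ∪ d.2, mem_powersetCard.mpr ⟨subset_univ _, ?_⟩, rfl⟩
      rw [card_union_of_disjoint h3, h1, h2]
      omega
    unfold span
    omega

end Pool.Agent.Y426.BES
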