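import Pool.Agent.Y426.BES.Cells
import Pool.Agent.Y426.BES.Tensor
import Pool.Agent.Y426.BES.Words

/-!
# Cubes of corners
-/

set_option autoImplicit false

open Finset

namespace Pool.Agent.Y426.BES

universe u v w

/-- `H` contains a cube of corners of dimension `m`: cells indexed by the words of length `m` over
three letters, with row, column and symbol depending only on the set of positions of the letter
`2`, `1` and `0`. -/
def Cube {ι : Type u} {A : ι → Type v} (mul : ∀ i, A i → A i → A i) (m : ℕ)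
    (H : Finset (∀ i, A i × A i)) : Prop :=
  ∃ ρ κ ς : (Fin m → Bool) → ∀ i, A i, Function.Injective ρ ∧ Function.Injective κ ∧
    ∀ a : Fin m → Fin 3, (fun i => (ρ (wR a) i, κ (wC a) i)) ∈ H ∧
      (fun i => mul i (ρ (wR a) i) (κ (wC a) i)) = ς (wS a)

theorem word_ext {m : ℕ} {a b : Fin m → Fin 3} (h1 : wR a = wR b) (h2 : wC a = wC b) : a = b := by
  funext e
  have h3 := congrFun h1 e
  have h4 := congrFun h2 e
  simp only [wR, wC, decide_eq_decide] at h3 h4
  generalize a e = x at *
  generalize b e = y at *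
  revert x y
  decide

theorem cells_of_cube {ι : Type u} {A : ι → Type v} {mul : ∀ i, A i → A i → A i} {m : ℕ}
    {H : Finset (∀ i, A i × A i)} (h : Cube mul m H) (T : Finset (Fin m → Fin 3)) :
    ∃ T' ⊆ H, T'.card = T.card ∧ ∃ R C S : Finset (∀ i, A i),
      R.card + C.card + S.card ≤ span T ∧
        ∀ t ∈ T', (fun i => (t i).1) ∈ R ∧ (fun i => (t i).2) ∈ C ∧
          (fun i => mul i (t i).1 (t i).2) ∈ S := by
  classical
  obtain ⟨ρ, κ, ς, hρ, hκ, hH⟩ := h
  have hinj : Function.Injective (fun (a : Fin m → Fin 3) i => (ρ (wR a) i, κ (wC a) i)) := by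
    intro a b hab
    have h1 : ρ (wR a) = ρ (wR b) := by
      funext i
      exact (Prod.mk.inj (congrFun hab i)).1
    have h2 : κ (wC a) = κ (wC b) := by
      funext i
      exact (Prod.mk.inj (congrFun hab i)).2
    exact word_ext (hρ h1) (hκ h2)
  refine ⟨T.image (fun (a : Fin m → Fin 3) i => (ρ (wR a) i, κ (wC a) i)), ?_,
    card_image_of_injective _ hinj, (T.image wR).image ρ, (T.image wC).image κ,
    (T.image wS).image ς, ?_, ?_⟩
  · intro t ht
    obtain ⟨a, -, rfl⟩ := mem_image.mp ht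
    exact (hH a).1
  · unfold span
    exact Nat.add_le_add (Nat.add_le_add card_image_le card_image_le) card_image_le
  · intro t ht
    obtain ⟨a, ha, rfl⟩ := mem_image.mp ht
    exact ⟨mem_image_of_mem _ (mem_image_of_mem _ ha), mem_image_of_mem _ (mem_image_of_mem _ ha),
      mem_image.mpr ⟨wS a, mem_image_of_mem _ ha, (hH a).2.symm⟩⟩

/-- cubes of corners from the density Hales–Jewett theorem -/
theorem cube_of_many (m : ℕ) (hm : 1 ≤ m) (δ : ℝ) (hδ : 0 < δ) :
    ∃ N : ℕ, ∀ (ι : Type u) [Fintype ι] (A : ι → Type v) [∀ i, Fintype (A i)]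
      (mul : ∀ i, A i → A i → A i) (_ : ∀ i a, Function.Bijective (mul i a))
      (_ : ∀ i a, Function.Bijective (fun b => mul i b a)),
      N ≤ Fintype.card ι → (∀ i, 2 ≤ Fintype.card (A i)) →
      ∀ H : Finset (∀ i, A i × A i), δ * ((∏ i, Fintype.card (A i) : ℕ) : ℝ) ^ 2 ≤ H.card →
      Cube mul m H := by
  classical
  obtain ⟨N, hN⟩ := sub.{u, v} 2 m (by norm_num) hm δ hδ
  refine ⟨N, ?_⟩
  intro ι _ A _ mul hl hr hι hA H hH
  obtain ⟨p, q, x, f, hpq, hf, hmem⟩ := hN ι A mul hl hι hA H hH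
  set σ : ∀ i, Equiv.Perm (A i) := fun i => shift (mul i) (hl i) (p i) (q i) with hσ
  have hσx : ∀ i y, mul i (p i) (σ i y) = mul i (q i) y := fun i y => mul_shift _ _ _ _ _
  have hne : ∀ i y, σ i y ≠ y := by
    intro i y h
    have h1 := hσx i y
    rw [h] at h1
    exact hpq i ((hr i y).1 h1)
  refine ⟨row p q f, fun s => col σ x f (fun e => ((if s e then 1 else 0 : Fin 2) : ℕ)),
    fun s i => (f i).elim (fun k => mul i (if k.1 then q i else p i) ((σ i ^ (k.2 : ℕ)) (x i)))
      (fun e => if s e then mul i (p i) (x i) else mul i (q i) (x i)),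
    row_injective hpq hf, ?_, ?_⟩
  · intro s s' h
    funext e
    obtain ⟨i, hi⟩ := hf e
    have h1 := congrFun h i
    simp only [col, hi, Sum.elim_inr] at h1
    cases h2 : s e <;> cases h3 : s' e <;> simp [h2, h3] at h1 ⊢
    · exact hne i _ h1.symm
    · exact hne i _ h1
  · intro a
    refine ⟨?_, ?_⟩
    · convert hmem (wR a) (fun e => if wC a e then 1 else 0) using 2 with i
      rcases hfi : f i with k | e <;> simp [row, col, hfi, hσ]
    · funext i
      rcases hfi : f i with k | e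
      · simp [row, col, hfi]
      · have h3 : a e = 0 ∨ a e = 1 ∨ a e = 2 := by
          generalize a e = x
          revert x
          decide
        rcases h3 with h | h | h
        · simp [row, col, hfi, wR, wC, wS, h]
        · simp [row, col, hfi, wR, wC, wS, h, hσx]
        · simp [row, col, hfi, wR, wC, wS, h]

/-- cubes of corners from the triangle removal lemma -/
theorem cube_of_large (m : ℕ) (δ : ℝ) (hδ : 0 < δ) :
    ∃ n₀ : ℕ, ∀ (ι : Type u) [Fintype ι] (A : ι → Type v) [∀ i, Fintype (A i)]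
      (mul : ∀ i, A i → A i → A i) (_ : ∀ i a, Function.Bijective (mul i a))
      (_ : ∀ i a, Function.Bijective (fun b => mul i b a)) (S : Finset ι), S.card = m →
      (∀ i ∈ S, n₀ ≤ Fintype.card (A i)) → (∀ i, Nonempty (A i)) →
      ∀ H : Finset (∀ i, A i × A i), δ * ((∏ i, Fintype.card (A i) : ℕ) : ℝ) ^ 2 ≤ H.card →
      Cube mul m H := by
  classical
  obtain ⟨c, hc, n₀, hn₀⟩ := tensor.{u, v} 0 m δ hδ
  refine ⟨n₀, ?_⟩
  intro ι _ A _ mul hl hr S hS hbig hA H hH
  have h1 := hn₀ ι A mul hl hr S H hS hbig (by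
    refine le_trans (le_of_eq ?_) hH
    rw [Fintype.card_pi]
    congr 1
    have h2 : (∏ i, Fintype.card (A i × A i)) = (∏ i, Fintype.card (A i)) ^ 2 := by
      rw [← prod_pow]
      exact prod_congr rfl fun i _ => by rw [Fintype.card_prod, sq]
    rw [h2]
    push_cast
    ring)
  have hpos : 0 < c * ((Fintype.card (∀ i, A i × A i × (Fin (0 + 1) → A i)) : ℝ) *
      Fintype.card (∀ i, A i × A i)) := by
    have h2 : 0 < Fintype.card (∀ i, A i × A i × (Fin (0 + 1) → A i)) := Fintype.card_pos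
    have h3 : 0 < Fintype.card (∀ i, A i × A i) := Fintype.card_pos
    positivity
  obtain ⟨θ, b, hEv⟩ : ∃ (θ : ∀ i, A i × A i × (Fin (0 + 1) → A i)) (b : ∀ i, A i × A i),
      Ev mul hl hr 0 S H θ b := by
    by_contra hcon
    push Not at hcon
    have h2 : ∑ θ : ∀ i, A i × A i × (Fin (0 + 1) → A i), ∑ b : ∀ i, A i × A i,
          Set.indicator {b | Ev mul hl hr 0 S H θ b} (fun _ => (1 : ℝ)) b = 0 := by
      refine sum_eq_zero fun θ _ => sum_eq_zero fun b _ => ?_
      rw [Set.indicator_of_notMem]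
      exact hcon θ b
    rw [h2] at h1
    linarith
  obtain ⟨hnd, hmem⟩ := hEv
  let e : S ≃ Fin m := S.equivFinOfCardEq hS
  have hrd : ∀ i ∈ S, rdiv (mul i) (hr i) ((θ i).2.2 0) (θ i).2.1 ≠ (θ i).1 := by
    intro i hi h
    apply (hnd i hi).2 0
    rw [← h]
    exact rdiv_mul (mul i) (hr i) _ _
  have hld : ∀ i ∈ S, ldiv (mul i) (hl i) (θ i).1 ((θ i).2.2 0) ≠ (θ i).2.1 := by
    intro i hi h
    apply (hnd i hi).2 0
    rw [← h]
    exact mul_ldiv (mul i) (hl i) _ _
  refine ⟨fun s i => if h : i ∈ S then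
      (if s (e ⟨i, h⟩) then rdiv (mul i) (hr i) ((θ i).2.2 0) (θ i).2.1 else (θ i).1) else (b i).1,
    fun s i => if h : i ∈ S then
      (if s (e ⟨i, h⟩) then ldiv (mul i) (hl i) (θ i).1 ((θ i).2.2 0) else (θ i).2.1) else (b i).2,
    fun s i => if h : i ∈ S then
      (if s (e ⟨i, h⟩) then mul i (θ i).1 (θ i).2.1 else ((θ i).2.2 0)) else mul i (b i).1 (b i).2,
    ?_, ?_, ?_⟩
  · intro s s' h
    funext k
    have hi := (e.symm k).2
    have h1 := congrFun h (e.symm k).1
    simp only [hi, dif_pos, Subtype.coe_eta, Equiv.apply_symm_apply] at h1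
    cases h2 : s k <;> cases h3 : s' k <;> simp [h2, h3] at h1 ⊢
    · exact hrd _ hi h1.symm
    · exact hrd _ hi h1
  · intro s s' h
    funext k
    have hi := (e.symm k).2
    have h1 := congrFun h (e.symm k).1
    simp only [hi, dif_pos, Subtype.coe_eta, Equiv.apply_symm_apply] at h1
    cases h2 : s k <;> cases h3 : s' k <;> simp [h2, h3] at h1 ⊢
    · exact hld _ hi h1.symm
    · exact hld _ hi h1
  · intro a
    refine ⟨?_, ?_⟩
    · convert hmem (fun i => if h : i ∈ S then
        (if a (e ⟨i, h⟩) = 1 then some (false, 0) else if a (e ⟨i, h⟩) = 2 then some (true, 0)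
          else none) else none) using 2 with i
      by_cases hi : i ∈ S
      · have h3 : a (e ⟨i, hi⟩) = 0 ∨ a (e ⟨i, hi⟩) = 1 ∨ a (e ⟨i, hi⟩) = 2 := by
          generalize a (e ⟨i, hi⟩) = x
          revert x
          decide
        rcases h3 with h | h | h <;> simp [hi, h, wR, wC, cellt]
      · simp [hi]
    · funext i
      by_cases hi : i ∈ S
      · have h3 : a (e ⟨i, hi⟩) = 0 ∨ a (e ⟨i, hi⟩) = 1 ∨ a (e ⟨i, hi⟩) = 2 := by
          generalize a (e ⟨i, hi⟩) = x
          revert x
          decide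
        rcases h3 with h | h | h <;> simp [hi, h, wR, wC, wS, mul_ldiv, rdiv_mul]
      · simp [hi]

end Pool.Agent.Y426.BES
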