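import Pool.Agent.Y426.BES.Two

/-!
# All cells of the product of the families of corners
-/

set_option autoImplicit false

open Finset

namespace Pool.Agent.Y426.BES

universe u v w

theorem dense_large (m t : ℕ) (δ : ℝ) (hδ : 0 < δ) :
    ∃ n₀ : ℕ, ∀ (ι : Type u) [Fintype ι] (A : ι → Type v) [∀ i, Fintype (A i)]
      (mul : ∀ i, A i → A i → A i) (_ : ∀ i a, Function.Bijective (mul i a))
      (_ : ∀ i a, Function.Bijective (fun b => mul i b a)),
      m ≤ (univ.filter fun i => n₀ ≤ Fintype.card (A i)).card → (∀ i, Nonempty (A i)) →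
      ∀ H : Finset (∀ i, A i × A i), δ * ((∏ i, Fintype.card (A i) : ℕ) : ℝ) ^ 2 ≤ H.card →
      ∃ T ⊆ H, T.card = (2 * (t + 1) + 1) ^ m ∧
        ∃ R C S : Finset (∀ i, A i), R.card + C.card + S.card ≤ 3 * (t + 2) ^ m ∧
          ∀ t ∈ T, (fun i => (t i).1) ∈ R ∧ (fun i => (t i).2) ∈ C ∧
            (fun i => mul i (t i).1 (t i).2) ∈ S := by
  classical
  obtain ⟨c, hc, n₀, hn₀⟩ := tensor.{u, v} t m δ hδ
  refine ⟨n₀, ?_⟩
  intro ι _ A _ mul hl hr hm hA H hH
  obtain ⟨S, hS, hSc⟩ := exists_subset_card_eq hm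
  have h1 := hn₀ ι A mul hl hr S H hSc (fun i hi => (mem_filter.mp (hS hi)).2) (by
    refine le_trans (le_of_eq ?_) hH
    rw [Fintype.card_pi]
    congr 1
    have h2 : (∏ i, Fintype.card (A i × A i)) = (∏ i, Fintype.card (A i)) ^ 2 := by
      rw [← prod_pow]
      exact prod_congr rfl fun i _ => by rw [Fintype.card_prod, sq]
    rw [h2]
    push_cast
    ring)
  have hpos : 0 < c * ((Fintype.card (∀ i, A i × A i × (Fin (t + 1) → A i)) : ℝ) *
      Fintype.card (∀ i, A i × A i)) := by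
    have h2 : 0 < Fintype.card (∀ i, A i × A i × (Fin (t + 1) → A i)) := Fintype.card_pos
    have h3 : 0 < Fintype.card (∀ i, A i × A i) := Fintype.card_pos
    positivity
  obtain ⟨θ, b, hEv⟩ : ∃ (θ : ∀ i, A i × A i × (Fin (t + 1) → A i)) (b : ∀ i, A i × A i),
      Ev mul hl hr t S H θ b := by
    by_contra hcon
    push Not at hcon
    have h2 : ∑ θ : ∀ i, A i × A i × (Fin (t + 1) → A i), ∑ b : ∀ i, A i × A i,
          Set.indicator {b | Ev mul hl hr t S H θ b} (fun _ => (1 : ℝ)) b = 0 := by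
      refine sum_eq_zero fun θ _ => sum_eq_zero fun b _ => ?_
      rw [Set.indicator_of_notMem]
      exact hcon θ b
    rw [h2] at h1
    linarith
  obtain ⟨hnd, hmem⟩ := hEv
  let e : S ≃ Fin m := S.equivFinOfCardEq hSc
  -- rows, columns and symbols of a factor
  set rv : ∀ l, Option (Fin (t + 1)) → A l := fun l p =>
    p.elim (θ l).1 (fun k => rdiv (mul l) (hr l) ((θ l).2.2 k) (θ l).2.1) with hrv
  set cv : ∀ l, Option (Fin (t + 1)) → A l := fun l p =>
    p.elim (θ l).2.1 (fun k => ldiv (mul l) (hl l) (θ l).1 ((θ l).2.2 k)) with hcv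
  set sv : ∀ l, Option (Fin (t + 1)) → A l := fun l p =>
    p.elim (mul l (θ l).1 (θ l).2.1) (fun k => (θ l).2.2 k) with hsv
  have hcell : ∀ l κ, cellt (mul l) (hl l) (hr l) κ (θ l) = (rv l (rowc κ), cv l (colc κ)) := by
    intro l κ
    rcases κ with _ | ⟨b, k⟩
    · rfl
    · cases b <;> rfl
  have hsym : ∀ l κ, mul l (rv l (rowc κ)) (cv l (colc κ)) = sv l (symc κ) := by
    intro l κ
    rcases κ with _ | ⟨b, k⟩
    · rfl
    · cases b
      · exact mul_ldiv (mul l) (hl l) _ _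
      · exact rdiv_mul (mul l) (hr l) _ _
  have hrvinj : ∀ l ∈ S, Function.Injective (rv l) := by
    intro l hl' p q h
    rcases p with _ | k <;> rcases q with _ | k'
    · rfl
    · exfalso
      refine (hnd l hl').2 k' ?_
      have h2 : (θ l).1 = rdiv (mul l) (hr l) ((θ l).2.2 k') (θ l).2.1 := h
      calc mul l (θ l).1 (θ l).2.1
          = mul l (rdiv (mul l) (hr l) ((θ l).2.2 k') (θ l).2.1) (θ l).2.1 := by rw [← h2]
        _ = (θ l).2.2 k' := rdiv_mul (mul l) (hr l) _ _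
    · exfalso
      refine (hnd l hl').2 k ?_
      have h2 : rdiv (mul l) (hr l) ((θ l).2.2 k) (θ l).2.1 = (θ l).1 := h
      calc mul l (θ l).1 (θ l).2.1
          = mul l (rdiv (mul l) (hr l) ((θ l).2.2 k) (θ l).2.1) (θ l).2.1 := by rw [h2]
        _ = (θ l).2.2 k := rdiv_mul (mul l) (hr l) _ _
    · congr 1
      apply (hnd l hl').1
      have h2 : rdiv (mul l) (hr l) ((θ l).2.2 k) (θ l).2.1
          = rdiv (mul l) (hr l) ((θ l).2.2 k') (θ l).2.1 := h
      exact (rdiv_mul (mul l) (hr l) ((θ l).2.2 k) (θ l).2.1).symm.trans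
        ((congrArg (fun z => mul l z (θ l).2.1) h2).trans (rdiv_mul (mul l) (hr l) _ _))
  have hcvinj : ∀ l ∈ S, Function.Injective (cv l) := by
    intro l hl' p q h
    rcases p with _ | k <;> rcases q with _ | k'
    · rfl
    · exfalso
      refine (hnd l hl').2 k' ?_
      have h2 : (θ l).2.1 = ldiv (mul l) (hl l) (θ l).1 ((θ l).2.2 k') := h
      calc mul l (θ l).1 (θ l).2.1
          = mul l (θ l).1 (ldiv (mul l) (hl l) (θ l).1 ((θ l).2.2 k')) := by rw [← h2]
        _ = (θ l).2.2 k' := mul_ldiv (mul l) (hl l) _ _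
    · exfalso
      refine (hnd l hl').2 k ?_
      have h2 : ldiv (mul l) (hl l) (θ l).1 ((θ l).2.2 k) = (θ l).2.1 := h
      calc mul l (θ l).1 (θ l).2.1
          = mul l (θ l).1 (ldiv (mul l) (hl l) (θ l).1 ((θ l).2.2 k)) := by rw [h2]
        _ = (θ l).2.2 k := mul_ldiv (mul l) (hl l) _ _
    · congr 1
      apply (hnd l hl').1
      have h2 : ldiv (mul l) (hl l) (θ l).1 ((θ l).2.2 k)
          = ldiv (mul l) (hl l) (θ l).1 ((θ l).2.2 k') := h
      exact (mul_ldiv (mul l) (hl l) (θ l).1 ((θ l).2.2 k)).symm.trans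
        ((congrArg (fun z => mul l (θ l).1 z) h2).trans (mul_ldiv (mul l) (hl l) _ _))
  -- rows, columns and symbols of the product
  set ρ : (Fin m → Option (Fin (t + 1))) → ∀ l, A l := fun p l =>
    if h : l ∈ S then rv l (p (e ⟨l, h⟩)) else (b l).1 with hρ
  set κ : (Fin m → Option (Fin (t + 1))) → ∀ l, A l := fun p l =>
    if h : l ∈ S then cv l (p (e ⟨l, h⟩)) else (b l).2 with hκ
  set ς : (Fin m → Option (Fin (t + 1))) → ∀ l, A l := fun p l =>
    if h : l ∈ S then sv l (p (e ⟨l, h⟩)) else mul l (b l).1 (b l).2 with hς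
  set Φ : (Fin m → Option (Bool × Fin (t + 1))) → ∀ l, A l × A l := fun w l =>
    (ρ (fun x => rowc (w x)) l, κ (fun x => colc (w x)) l) with hΦ
  have hΦH : ∀ w, Φ w ∈ H := by
    intro w
    convert hmem (fun l => if h : l ∈ S then w (e ⟨l, h⟩) else none) using 2 with l
    by_cases hlS : l ∈ S
    · simp [hΦ, hρ, hκ, hlS, hcell]
    · simp [hΦ, hρ, hκ, hlS]
  have hΦsym : ∀ w, (fun l => mul l (Φ w l).1 (Φ w l).2) = ς (fun x => symc (w x)) := by
    intro w
    funext l
    by_cases hlS : l ∈ S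
    · simp [hΦ, hρ, hκ, hς, hlS, hsym]
    · simp [hΦ, hρ, hκ, hς, hlS]
  have hΦinj : Function.Injective Φ := by
    intro w w' h
    funext x
    have hlS := (e.symm x).2
    have h2 := congrFun h (e.symm x).1
    simp only [hΦ, hρ, hκ, hlS, dif_pos, Subtype.coe_eta, Equiv.apply_symm_apply,
      Prod.mk.injEq] at h2
    exact code_inj (hrvinj _ hlS h2.1) (hcvinj _ hlS h2.2)
  have hcount : ∀ (f : (Fin m → Option (Fin (t + 1))) → ∀ l, A l),
      (univ.image f).card ≤ (t + 2) ^ m := by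
    intro f
    refine card_image_le.trans (le_of_eq ?_)
    simp
  refine ⟨univ.image Φ, ?_, ?_, univ.image ρ, univ.image κ, univ.image ς, ?_, ?_⟩
  · intro x hx
    obtain ⟨p, -, rfl⟩ := mem_image.mp hx
    exact hΦH p
  · rw [card_image_of_injective _ hΦinj, card_univ]
    simp
  · have a1 := hcount ρ
    have a2 := hcount κ
    have a3 := hcount ς
    omega
  · intro x hx
    obtain ⟨p, -, rfl⟩ := mem_image.mp hx
    exact ⟨mem_image.mpr ⟨fun x => rowc (p x), mem_univ _, rfl⟩,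
      mem_image.mpr ⟨fun x => colc (p x), mem_univ _, rfl⟩,
      mem_image.mpr ⟨fun x => symc (p x), mem_univ _, (hΦsym p).symm⟩⟩

end Pool.Agent.Y426.BES
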