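import Pool.Agent.Y426.BES.Core

/-!
# Products of quasigroups
-/

set_option autoImplicit false

open Finset

namespace Pool.Agent.Y426.BES

universe u v w

section Quasi

variable {A : Type v} (mul : A → A → A) (hl : ∀ a, Function.Bijective (mul a))

/-- `shift r s y` is the `z` with `r z = s y` -/
noncomputable def shift (r s : A) : Equiv.Perm A :=
  (Equiv.ofBijective (mul s) (hl s)).trans (Equiv.ofBijective (mul r) (hl r)).symm

theorem mul_shift (r s y : A) : mul r (shift mul hl r s y) = mul s y :=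
  (Equiv.ofBijective (mul r) (hl r)).apply_symm_apply _

/-- the cell with letter `(b, j)` -/
noncomputable def cell {c : ℕ} (k : Bool × Fin c) (t : {p : A × A // p.1 ≠ p.2} × A) : A × A :=
  (if k.1 then t.1.1.2 else t.1.1.1, (shift mul hl t.1.1.1 t.1.1.2 ^ (k.2 : ℕ)) t.2)

theorem fibre [Fintype A] {c : ℕ} (k : Bool × Fin c) (q : A × A) :
    Nat.card {t // cell mul hl k t = q} = Fintype.card A - 1 := by
  classical
  obtain ⟨b, j⟩ := k
  obtain ⟨u, v⟩ := q
  have h0 : Nat.card {r : A // r ≠ u} = Fintype.card A - 1 := by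
    rw [Nat.card_eq_fintype_card]
    exact Set.card_ne_eq u
  rw [← h0]
  cases b
  · refine Nat.card_congr
      { toFun := fun t => ⟨t.1.1.1.2, fun h => ?_⟩
        invFun := fun r =>
          ⟨(⟨(u, r.1), r.2.symm⟩, (shift mul hl u r.1 ^ (j : ℕ)).symm v), ?_⟩
        left_inv := ?_
        right_inv := ?_ }
    · obtain ⟨⟨⟨⟨p, p'⟩, hp⟩, x⟩, ht⟩ := t
      simp only [cell, Bool.false_eq_true, if_false, Prod.mk.injEq] at ht
      exact hp (by simp only at h ⊢; rw [h, ht.1])
    · simp only [cell, Bool.false_eq_true, if_false, Prod.mk.injEq, true_and]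
      exact Equiv.apply_symm_apply _ _
    · rintro ⟨⟨⟨⟨p, p'⟩, hp⟩, x⟩, ht⟩
      simp only [cell, Bool.false_eq_true, if_false, Prod.mk.injEq] at ht
      obtain ⟨rfl, rfl⟩ := ht
      simp only [Subtype.mk.injEq, Prod.mk.injEq, true_and]
      exact Equiv.symm_apply_apply _ _
    · rintro ⟨r, hr⟩
      rfl
  · refine Nat.card_congr
      { toFun := fun t => ⟨t.1.1.1.1, fun h => ?_⟩
        invFun := fun r =>
          ⟨(⟨(r.1, u), r.2⟩, (shift mul hl r.1 u ^ (j : ℕ)).symm v), ?_⟩
        left_inv := ?_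
        right_inv := ?_ }
    · obtain ⟨⟨⟨⟨p, p'⟩, hp⟩, x⟩, ht⟩ := t
      simp only [cell, if_true, Prod.mk.injEq] at ht
      exact hp (by simp only at h ⊢; rw [h, ht.1])
    · simp only [cell, if_true, Prod.mk.injEq, true_and]
      exact Equiv.apply_symm_apply _ _
    · rintro ⟨⟨⟨⟨p, p'⟩, hp⟩, x⟩, ht⟩
      simp only [cell, if_true, Prod.mk.injEq] at ht
      obtain ⟨rfl, rfl⟩ := ht
      simp only [Subtype.mk.injEq, Prod.mk.injEq, true_and]
      exact Equiv.symm_apply_apply _ _
    · rintro ⟨r, hr⟩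
      rfl

end Quasi

/-- A dense set of cells contains a family of cells indexed by `{0,1}^m × {0,…,c-1}^m`: in each
coordinate `i` there are rows `p i ≠ q i` and a column `x i`; the coordinate `i` is either fixed,
with row `p i` or `q i` and column `σ^k (x i)`, or it is governed by one of the `m` variables. Here
`σ = shift (p i) (q i)`. -/
theorem sub (c m : ℕ) (hc : 1 ≤ c) (hm : 0 < m) (δ : ℝ) (hδ : 0 < δ) :
    ∃ N : ℕ, ∀ (ι : Type u) [Fintype ι] (A : ι → Type v) [∀ i, Fintype (A i)]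
      (mul : ∀ i, A i → A i → A i) (hl : ∀ i a, Function.Bijective (mul i a)),
      N ≤ Fintype.card ι → (∀ i, 2 ≤ Fintype.card (A i)) →
      ∀ H : Finset (∀ i, A i × A i), δ * ((∏ i, Fintype.card (A i) : ℕ) : ℝ) ^ 2 ≤ H.card →
      ∃ (p q x : ∀ i, A i) (f : ι → (Bool × Fin c) ⊕ Fin m),
        (∀ i, p i ≠ q i) ∧ (∀ e, ∃ i, f i = Sum.inr e) ∧
        ∀ (b : Fin m → Bool) (w : Fin m → Fin c),
          (fun i => (if ((f i).elim id (fun e => (b e, w e))).1 then q i else p i,
            (shift (mul i) (hl i) (p i) (q i) ^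
              (((f i).elim id (fun e => (b e, w e))).2 : ℕ)) (x i))) ∈ H := by
  classical
  have : Nonempty (Fin c) := ⟨⟨0, hc⟩⟩
  obtain ⟨n, hn0, hn⟩ := embed.{u, v, v} (Bool × Fin c) m hm δ hδ
  refine ⟨n, ?_⟩
  intro ι _ A _ mul hl hι hA H hH
  obtain ⟨g, hg⟩ := exists_surj n hn0 hι
  have hpos : (0 : ℝ) < ((∏ i, Fintype.card (A i) : ℕ) : ℝ) := by
    have : 0 < ∏ i, Fintype.card (A i) := prod_pos fun i _ => by have := hA i; omega
    exact_mod_cast this
  have hHne : H.Nonempty := by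
    rw [← card_pos]
    have : (0 : ℝ) < H.card := lt_of_lt_of_le (by positivity) hH
    exact_mod_cast this
  obtain ⟨θ, V, hV⟩ := hn ι g (fun i => {p : A i × A i // p.1 ≠ p.2} × A i) (fun i => A i × A i)
    (fun i k t => cell (mul i) (hl i) k t) (fun i => Fintype.card (A i) - 1)
    (fun i => by have := hA i; show 0 < Fintype.card (A i) - 1; omega)
    (fun i k b => fibre (mul i) (hl i) k b) H hHne (by
      refine le_trans (le_of_eq ?_) hH
      have h1 : (∏ i, Fintype.card (A i × A i)) = (∏ i, Fintype.card (A i)) ^ 2 := by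
        rw [← prod_pow]
        exact prod_congr rfl fun i _ => by rw [Fintype.card_prod, sq]
      rw [h1]
      push_cast
      ring)
  refine ⟨fun i => (θ i).1.1.1, fun i => (θ i).1.1.2, fun i => (θ i).2, fun i => V.idxFun (g i),
    fun i => (θ i).1.2, ?_, ?_⟩
  · intro e
    obtain ⟨k, hk⟩ := V.proper e
    obtain ⟨i, rfl⟩ := hg k
    exact ⟨i, hk⟩
  · intro b w
    exact hV (fun e => (b e, w e))

end Pool.Agent.Y426.BES
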