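import Pool.Agent.Y426.BES.Cube

/-!
# Two large factors
-/

set_option autoImplicit false

open Finset

namespace Pool.Agent.Y426.BES

universe u v w

section Codes

variable {n : ℕ}

/-- which row of the family of corners: `none` for the common row -/
def rowc (κ : Option (Bool × Fin n)) : Option (Fin n) :=
  κ.elim none (fun p => if p.1 then some p.2 else none)

/-- which column of the family of corners: `none` for the common column -/
def colc (κ : Option (Bool × Fin n)) : Option (Fin n) :=
  κ.elim none (fun p => if p.1 then none else some p.2)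

/-- which symbol of the family of corners: `none` for the symbol of the common cell -/
def symc (κ : Option (Bool × Fin n)) : Option (Fin n) :=
  κ.elim none (fun p => some p.2)

/-- the letter that is left out at first -/
def forb (κ : Option (Bool × Fin n)) : Fin 3 :=
  κ.elim 0 (fun p => if p.1 then 2 else 1)

theorem code_inj {κ κ' : Option (Bool × Fin n)} (h1 : rowc κ = rowc κ') (h2 : colc κ = colc κ') :
    κ = κ' := by
  rcases κ with _ | ⟨b, k⟩ <;> rcases κ' with _ | ⟨b', k'⟩
  · rfl
  · cases b' <;> simp [rowc, colc] at h1 h2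
  · cases b <;> simp [rowc, colc] at h1 h2
  · cases b <;> cases b' <;> simp [rowc, colc] at h1 h2
    · rw [h2]
    · rw [h1]

/-- the codes of the cells of the configuration -/
def codes (F : Finset (Option (Bool × Fin n))) : Finset (Option (Bool × Fin n) × Fin 3) :=
  univ.filter fun p => p.2 ≠ forb p.1 ∨ p.1 ∈ F

theorem card_codes (F : Finset (Option (Bool × Fin n))) :
    (codes F).card = 4 * n + 2 + F.card := by
  classical
  have h1 : codes F = (univ.filter fun p : Option (Bool × Fin n) × Fin 3 => ¬ p.2 = forb p.1) ∪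
      F.image (fun κ => (κ, forb κ)) := by
    ext ⟨κ, l⟩
    simp only [codes, mem_filter, mem_univ, true_and, mem_union, mem_image, Prod.mk.injEq]
    constructor
    · rintro (h | h)
      · exact Or.inl h
      · by_cases h' : l = forb κ
        · exact Or.inr ⟨κ, h, rfl, h'.symm⟩
        · exact Or.inl h'
    · rintro (h | ⟨κ', h, rfl, -⟩)
      · exact Or.inl h
      · exact Or.inr h
  have h2 : Disjoint (univ.filter fun p : Option (Bool × Fin n) × Fin 3 => ¬ p.2 = forb p.1)
      (F.image (fun κ => (κ, forb κ))) := by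
    rw [disjoint_left]
    intro p hp hp'
    obtain ⟨κ, -, rfl⟩ := mem_image.mp hp'
    exact (mem_filter.mp hp).2 rfl
  have h3 : (univ.filter fun p : Option (Bool × Fin n) × Fin 3 => p.2 = forb p.1).card
      = 2 * n + 1 := by
    have h4 : (univ.filter fun p : Option (Bool × Fin n) × Fin 3 => p.2 = forb p.1)
        = univ.image (fun κ => (κ, forb κ)) := by
      ext ⟨κ, l⟩
      simp only [mem_filter, mem_univ, true_and, mem_image, Prod.mk.injEq]
      constructor
      · intro h
        exact ⟨κ, rfl, h.symm⟩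
      · rintro ⟨κ', rfl, h⟩
        exact h.symm
    rw [h4, card_image_of_injective _ (by
      intro κ κ' h
      exact (Prod.mk.inj h).1), card_univ]
    simp
  have h5 := card_filter_add_card_filter_not (s := (univ : Finset (Option (Bool × Fin n) × Fin 3)))
    (fun p => p.2 = forb p.1)
  rw [h3, card_univ] at h5
  have h6 : Fintype.card (Option (Bool × Fin n) × Fin 3) = (2 * n + 1) * 3 := by simp
  rw [h6] at h5
  rw [h1, card_union_of_disjoint h2, card_image_of_injective _ (by
      intro κ κ' h
      exact (Prod.mk.inj h).1)]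
  omega

theorem row_codes (F : Finset (Option (Bool × Fin n))) :
    ((codes F).image (fun p => (rowc p.1, decide (p.2 = 2)))).card
      ≤ 2 + n + (F.filter fun κ => forb κ = 2).card := by
  classical
  have h1 : (codes F).image (fun p => (rowc p.1, decide (p.2 = 2))) ⊆
      ((univ.image (fun b : Bool => ((none : Option (Fin n)), b))) ∪
        univ.image (fun k : Fin n => (some k, false))) ∪
        (F.filter fun κ => forb κ = 2).image (fun κ => (rowc κ, true)) := by
    intro x hx
    obtain ⟨⟨κ, l⟩, hp, rfl⟩ := mem_image.mp hx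
    have hp' := (mem_filter.mp hp).2
    rcases κ with _ | ⟨b, k⟩
    · exact mem_union_left _ (mem_union_left _ (mem_image.mpr ⟨_, mem_univ _, rfl⟩))
    · cases b
      · exact mem_union_left _ (mem_union_left _ (mem_image.mpr ⟨_, mem_univ _, rfl⟩))
      · by_cases hl : l = 2
        · rcases hp' with h | h
          · exact absurd hl h
          · refine mem_union_right _ (mem_image.mpr ⟨_, mem_filter.mpr ⟨h, rfl⟩, ?_⟩)
            simp [hl]
        · refine mem_union_left _ (mem_union_right _ (mem_image.mpr ⟨k, mem_univ _, ?_⟩))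
          simp [hl, rowc]
  refine (card_le_card h1).trans ((card_union_le _ _).trans
    (Nat.add_le_add ((card_union_le _ _).trans (Nat.add_le_add ?_ ?_)) card_image_le))
  · refine card_image_le.trans (le_of_eq ?_)
    simp
  · refine card_image_le.trans (le_of_eq ?_)
    simp

theorem col_codes (F : Finset (Option (Bool × Fin n))) :
    ((codes F).image (fun p => (colc p.1, decide (p.2 = 1)))).card
      ≤ 2 + n + (F.filter fun κ => forb κ = 1).card := by
  classical
  have h1 : (codes F).image (fun p => (colc p.1, decide (p.2 = 1))) ⊆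
      ((univ.image (fun b : Bool => ((none : Option (Fin n)), b))) ∪
        univ.image (fun k : Fin n => (some k, false))) ∪
        (F.filter fun κ => forb κ = 1).image (fun κ => (colc κ, true)) := by
    intro x hx
    obtain ⟨⟨κ, l⟩, hp, rfl⟩ := mem_image.mp hx
    have hp' := (mem_filter.mp hp).2
    rcases κ with _ | ⟨b, k⟩
    · exact mem_union_left _ (mem_union_left _ (mem_image.mpr ⟨_, mem_univ _, rfl⟩))
    · cases b
      · by_cases hl : l = 1
        · rcases hp' with h | h
          · exact absurd hl h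
          · refine mem_union_right _ (mem_image.mpr ⟨_, mem_filter.mpr ⟨h, rfl⟩, ?_⟩)
            simp [hl]
        · refine mem_union_left _ (mem_union_right _ (mem_image.mpr ⟨k, mem_univ _, ?_⟩))
          simp [hl, colc]
      · exact mem_union_left _ (mem_union_left _ (mem_image.mpr ⟨_, mem_univ _, rfl⟩))
  refine (card_le_card h1).trans ((card_union_le _ _).trans
    (Nat.add_le_add ((card_union_le _ _).trans (Nat.add_le_add ?_ ?_)) card_image_le))
  · refine card_image_le.trans (le_of_eq ?_)
    simp
  · refine card_image_le.trans (le_of_eq ?_)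
    simp

theorem sym_codes (F : Finset (Option (Bool × Fin n))) :
    ((codes F).image (fun p => (symc p.1, decide (p.2 = 0)))).card
      ≤ 1 + 2 * n + (F.filter fun κ => forb κ = 0).card := by
  classical
  have h1 : (codes F).image (fun p => (symc p.1, decide (p.2 = 0))) ⊆
      (({(none, false)} : Finset (Option (Fin n) × Bool)) ∪
        univ.image (fun q : Fin n × Bool => (some q.1, q.2))) ∪
        (F.filter fun κ => forb κ = 0).image (fun κ => (symc κ, true)) := by
    intro x hx
    obtain ⟨⟨κ, l⟩, hp, rfl⟩ := mem_image.mp hx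
    have hp' := (mem_filter.mp hp).2
    rcases κ with _ | ⟨b, k⟩
    · by_cases hl : l = 0
      · rcases hp' with h | h
        · exact absurd hl h
        · refine mem_union_right _ (mem_image.mpr ⟨_, mem_filter.mpr ⟨h, rfl⟩, ?_⟩)
          simp [hl]
      · refine mem_union_left _ (mem_union_left _ ?_)
        simp [hl, symc]
    · exact mem_union_left _ (mem_union_right _ (mem_image.mpr ⟨(k, decide (l = 0)), mem_univ _, rfl⟩))
  refine (card_le_card h1).trans ((card_union_le _ _).trans
    (Nat.add_le_add ((card_union_le _ _).trans (Nat.add_le_add ?_ ?_)) card_image_le))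
  · simp
  · refine card_image_le.trans (le_of_eq ?_)
    simp [mul_comm]

theorem sum_codes (F : Finset (Option (Bool × Fin n))) :
    (F.filter fun κ => forb κ = 0).card + (F.filter fun κ => forb κ = 1).card +
      (F.filter fun κ => forb κ = 2).card = F.card := by
  have h := card_eq_sum_card_fiberwise (f := fun κ : Option (Bool × Fin n) => forb κ) (s := F)
    (t := (univ : Finset (Fin 3))) (by intro κ _; simp)
  rw [h, Fin.sum_univ_three]

end Codes

theorem two_large (n : ℕ) (hn : 1 ≤ n) (δ : ℝ) (hδ : 0 < δ) :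
    ∃ n₀ : ℕ, ∀ (ι : Type u) [Fintype ι] (A : ι → Type v) [∀ i, Fintype (A i)]
      (mul : ∀ i, A i → A i → A i) (_ : ∀ i a, Function.Bijective (mul i a))
      (_ : ∀ i a, Function.Bijective (fun b => mul i b a)),
      2 ≤ (univ.filter fun i => n₀ ≤ Fintype.card (A i)).card → (∀ i, Nonempty (A i)) →
      ∀ H : Finset (∀ i, A i × A i), δ * ((∏ i, Fintype.card (A i) : ℕ) : ℝ) ^ 2 ≤ H.card →
      ∀ F : Finset (Option (Bool × Fin n)), ∃ T ⊆ H, T.card = 4 * n + 2 + F.card ∧
        ∃ R C S : Finset (∀ i, A i), R.card + C.card + S.card ≤ 4 * n + 5 + F.card ∧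
          ∀ t ∈ T, (fun i => (t i).1) ∈ R ∧ (fun i => (t i).2) ∈ C ∧
            (fun i => mul i (t i).1 (t i).2) ∈ S := by
  classical
  obtain ⟨t, rfl⟩ : ∃ t, n = t + 1 := ⟨n - 1, by omega⟩
  obtain ⟨c, hc, n₀, hn₀⟩ := tensor.{u, v} t 2 δ hδ
  refine ⟨n₀, ?_⟩
  intro ι _ A _ mul hl hr htwo hA H hH F
  obtain ⟨S, hS, hSc⟩ := exists_subset_card_eq htwo
  have h1 := hn₀ ι A mul hl hr S H hSc (fun i hi => (mem_filter.mp (hS hi)).2) (by
    refine le_trans (le_of_eq ?_) hH
    rw [Fintype.card_pi]
    congr 1
    have h2 : (∏ i, Fintype.card (A i × A i)) = (∏ i, Fintype.card (A i)) ^ 2 := by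
      rw [← prod_pow]
      exact prod_congr rfl fun i _ => by rw [Fintype.card_prod, sq]
    rw [h2]
    push_cast
    ring)
  have hpos : 0 < c * ((Fintype.card (∀ i, A i × A i × (Fin (t + 1) → A i)) : ℝ) *
      Fintype.card (∀ i, A i × A i)) := by
    have h2 : 0 < Fintype.card (∀ i, A i × A i × (Fin (t + 1) → A i)) := Fintype.card_pos
    have h3 : 0 < Fintype.card (∀ i, A i × A i) := Fintype.card_pos
    positivity
  obtain ⟨θ, b, hEv⟩ : ∃ (θ : ∀ i, A i × A i × (Fin (t + 1) → A i)) (b : ∀ i, A i × A i),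
      Ev mul hl hr t S H θ b := by
    by_contra hcon
    push Not at hcon
    have h2 : ∑ θ : ∀ i, A i × A i × (Fin (t + 1) → A i), ∑ b : ∀ i, A i × A i,
          Set.indicator {b | Ev mul hl hr t S H θ b} (fun _ => (1 : ℝ)) b = 0 := by
      refine sum_eq_zero fun θ _ => sum_eq_zero fun b _ => ?_
      rw [Set.indicator_of_notMem]
      exact hcon θ b
    rw [h2] at h1
    linarith
  obtain ⟨hnd, hmem⟩ := hEv
  obtain ⟨i, j, hij, hSij⟩ := card_eq_two.mp hSc
  have hiS : i ∈ S := by rw [hSij]; simp
  have hjS : j ∈ S := by rw [hSij]; simp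
  have hji : j ≠ i := hij.symm
  -- rows, columns and symbols of a factor
  set rv : ∀ l, Option (Fin (t + 1)) → A l := fun l p =>
    p.elim (θ l).1 (fun k => rdiv (mul l) (hr l) ((θ l).2.2 k) (θ l).2.1) with hrv
  set cv : ∀ l, Option (Fin (t + 1)) → A l := fun l p =>
    p.elim (θ l).2.1 (fun k => ldiv (mul l) (hl l) (θ l).1 ((θ l).2.2 k)) with hcv
  set sv : ∀ l, Option (Fin (t + 1)) → A l := fun l p =>
    p.elim (mul l (θ l).1 (θ l).2.1) (fun k => (θ l).2.2 k) with hsv
  have hcell : ∀ l κ, cellt (mul l) (hl l) (hr l) κ (θ l) = (rv l (rowc κ), cv l (colc κ)) := by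
    intro l κ
    rcases κ with _ | ⟨b, k⟩
    · rfl
    · cases b <;> rfl
  have hsym : ∀ l κ, mul l (rv l (rowc κ)) (cv l (colc κ)) = sv l (symc κ) := by
    intro l κ
    rcases κ with _ | ⟨b, k⟩
    · rfl
    · cases b
      · exact mul_ldiv (mul l) (hl l) _ _
      · exact rdiv_mul (mul l) (hr l) _ _
  have hrvinj : ∀ l ∈ S, Function.Injective (rv l) := by
    intro l hl' p q h
    rcases p with _ | k <;> rcases q with _ | k'
    · rfl
    · exfalso
      refine (hnd l hl').2 k' ?_
      have h2 : (θ l).1 = rdiv (mul l) (hr l) ((θ l).2.2 k') (θ l).2.1 := h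
      calc mul l (θ l).1 (θ l).2.1
          = mul l (rdiv (mul l) (hr l) ((θ l).2.2 k') (θ l).2.1) (θ l).2.1 := by rw [← h2]
        _ = (θ l).2.2 k' := rdiv_mul (mul l) (hr l) _ _
    · exfalso
      refine (hnd l hl').2 k ?_
      have h2 : rdiv (mul l) (hr l) ((θ l).2.2 k) (θ l).2.1 = (θ l).1 := h
      calc mul l (θ l).1 (θ l).2.1
          = mul l (rdiv (mul l) (hr l) ((θ l).2.2 k) (θ l).2.1) (θ l).2.1 := by rw [h2]
        _ = (θ l).2.2 k := rdiv_mul (mul l) (hr l) _ _
    · congr 1
      apply (hnd l hl').1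
      have h2 : rdiv (mul l) (hr l) ((θ l).2.2 k) (θ l).2.1
          = rdiv (mul l) (hr l) ((θ l).2.2 k') (θ l).2.1 := h
      exact (rdiv_mul (mul l) (hr l) ((θ l).2.2 k) (θ l).2.1).symm.trans
        ((congrArg (fun z => mul l z (θ l).2.1) h2).trans (rdiv_mul (mul l) (hr l) _ _))
  have hcvinj : ∀ l ∈ S, Function.Injective (cv l) := by
    intro l hl' p q h
    rcases p with _ | k <;> rcases q with _ | k'
    · rfl
    · exfalso
      refine (hnd l hl').2 k' ?_
      have h2 : (θ l).2.1 = ldiv (mul l) (hl l) (θ l).1 ((θ l).2.2 k') := h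
      calc mul l (θ l).1 (θ l).2.1
          = mul l (θ l).1 (ldiv (mul l) (hl l) (θ l).1 ((θ l).2.2 k')) := by rw [← h2]
        _ = (θ l).2.2 k' := mul_ldiv (mul l) (hl l) _ _
    · exfalso
      refine (hnd l hl').2 k ?_
      have h2 : ldiv (mul l) (hl l) (θ l).1 ((θ l).2.2 k) = (θ l).2.1 := h
      calc mul l (θ l).1 (θ l).2.1
          = mul l (θ l).1 (ldiv (mul l) (hl l) (θ l).1 ((θ l).2.2 k)) := by rw [h2]
        _ = (θ l).2.2 k := mul_ldiv (mul l) (hl l) _ _
    · congr 1
      apply (hnd l hl').1
      have h2 : ldiv (mul l) (hl l) (θ l).1 ((θ l).2.2 k)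
          = ldiv (mul l) (hl l) (θ l).1 ((θ l).2.2 k') := h
      exact (mul_ldiv (mul l) (hl l) (θ l).1 ((θ l).2.2 k)).symm.trans
        ((congrArg (fun z => mul l (θ l).1 z) h2).trans (mul_ldiv (mul l) (hl l) _ _))
  -- rows, columns and symbols of the product
  set ρ : Option (Fin (t + 1)) × Bool → ∀ l, A l := fun p l =>
    if l = i then rv l p.1 else if l = j then rv l (if p.2 then some 0 else none) else (b l).1 with hρ
  set κ : Option (Fin (t + 1)) × Bool → ∀ l, A l := fun p l =>
    if l = i then cv l p.1 else if l = j then cv l (if p.2 then some 0 else none) else (b l).2 with hκ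
  set ς : Option (Fin (t + 1)) × Bool → ∀ l, A l := fun p l =>
    if l = i then sv l p.1 else if l = j then sv l (if p.2 then none else some 0)
      else mul l (b l).1 (b l).2 with hς
  set Φ : Option (Bool × Fin (t + 1)) × Fin 3 → ∀ l, A l × A l := fun p l =>
    (ρ (rowc p.1, decide (p.2 = 2)) l, κ (colc p.1, decide (p.2 = 1)) l) with hΦ
  have hΦH : ∀ p, Φ p ∈ H := by
    rintro ⟨μ, x⟩
    convert hmem (fun l => if l = i then μ else
      if x = 1 then some (false, 0) else if x = 2 then some (true, 0) else none) using 2 with l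
    by_cases hli : l = i
    · subst hli
      simp [hΦ, hρ, hκ, hiS, hcell]
    · by_cases hlj : l = j
      · subst hlj
        have h3 : x = 0 ∨ x = 1 ∨ x = 2 := by
          revert x
          decide
        rcases h3 with h | h | h <;> subst h <;> simp [hΦ, hρ, hκ, hjS, hji, hcell, rowc, colc]
      · have hlS : l ∉ S := by rw [hSij]; simp [hli, hlj]
        simp [hΦ, hρ, hκ, hlS, hli, hlj]
  have hΦsym : ∀ p, (fun l => mul l (Φ p l).1 (Φ p l).2) = ς (symc p.1, decide (p.2 = 0)) := by
    rintro ⟨μ, x⟩
    funext l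
    by_cases hli : l = i
    · subst hli
      simp [hΦ, hρ, hκ, hς, hsym]
    · by_cases hlj : l = j
      · subst hlj
        have h3 : x = 0 ∨ x = 1 ∨ x = 2 := by
          revert x
          decide
        have e0 := hsym l none
        have e1 := hsym l (some (false, 0))
        have e2 := hsym l (some (true, 0))
        simp only [rowc, colc, symc, Option.elim_none, Option.elim_some, if_true, if_false,
          Bool.false_eq_true] at e0 e1 e2
        rcases h3 with h | h | h <;> subst h <;> simp [hΦ, hρ, hκ, hς, hji, e0, e1, e2]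
      · simp [hΦ, hρ, hκ, hς, hli, hlj]
  have hΦinj : Function.Injective Φ := by
    rintro ⟨μ, x⟩ ⟨μ', x'⟩ h
    have hi := congrFun h i
    have hj := congrFun h j
    simp only [hΦ, hρ, hκ, if_true, Prod.mk.injEq, if_neg hji] at hi hj
    have hμ : μ = μ' := code_inj (hrvinj i hiS hi.1) (hcvinj i hiS hi.2)
    have h2 := hrvinj j hjS hj.1
    have h3 := hcvinj j hjS hj.2
    have hx : x = x' := by
      have h4 : decide (x = 2) = decide (x' = 2) := by
        by_cases a : x = 2 <;> by_cases a' : x' = 2 <;> simp [a, a'] at h2 ⊢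
      have h5 : decide (x = 1) = decide (x' = 1) := by
        by_cases a : x = 1 <;> by_cases a' : x' = 1 <;> simp [a, a'] at h3 ⊢
      clear h2 h3 hi hj h
      revert x x'
      decide
    rw [hμ, hx]
  refine ⟨(codes F).image Φ, ?_, ?_,
    ((codes F).image (fun p => (rowc p.1, decide (p.2 = 2)))).image ρ,
    ((codes F).image (fun p => (colc p.1, decide (p.2 = 1)))).image κ,
    ((codes F).image (fun p => (symc p.1, decide (p.2 = 0)))).image ς, ?_, ?_⟩
  · intro x hx
    obtain ⟨p, -, rfl⟩ := mem_image.mp hx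
    exact hΦH p
  · rw [card_image_of_injective _ hΦinj, card_codes]
  · have a1 := (card_image_le (s := (codes F).image (fun p => (rowc p.1, decide (p.2 = 2))))
      (f := ρ)).trans (row_codes F)
    have a2 := (card_image_le (s := (codes F).image (fun p => (colc p.1, decide (p.2 = 1))))
      (f := κ)).trans (col_codes F)
    have a3 := (card_image_le (s := (codes F).image (fun p => (symc p.1, decide (p.2 = 0))))
      (f := ς)).trans (sym_codes F)
    have a4 := sum_codes F
    omega
  · intro x hx
    obtain ⟨p, hp, rfl⟩ := mem_image.mp hx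
    refine ⟨mem_image.mpr ⟨_, mem_image_of_mem _ hp, rfl⟩,
      mem_image.mpr ⟨_, mem_image_of_mem _ hp, rfl⟩,
      mem_image.mpr ⟨_, mem_image_of_mem _ hp, (hΦsym p).symm⟩⟩

/-- every `e ≥ 6` -/
theorem two_large_all (e : ℕ) (he : 6 ≤ e) (δ : ℝ) (hδ : 0 < δ) :
    ∃ n₀ : ℕ, ∀ (ι : Type u) [Fintype ι] (A : ι → Type v) [∀ i, Fintype (A i)]
      (mul : ∀ i, A i → A i → A i) (_ : ∀ i a, Function.Bijective (mul i a))
      (_ : ∀ i a, Function.Bijective (fun b => mul i b a)),
      2 ≤ (univ.filter fun i => n₀ ≤ Fintype.card (A i)).card → (∀ i, Nonempty (A i)) →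
      ∀ H : Finset (∀ i, A i × A i), δ * ((∏ i, Fintype.card (A i) : ℕ) : ℝ) ^ 2 ≤ H.card →
      ∃ T ⊆ H, T.card = e ∧ ∃ R C S : Finset (∀ i, A i), R.card + C.card + S.card ≤ e + 3 ∧
          ∀ t ∈ T, (fun i => (t i).1) ∈ R ∧ (fun i => (t i).2) ∈ C ∧
            (fun i => mul i (t i).1 (t i).2) ∈ S := by
  set n : ℕ := (e - 2) / 4 with hn
  have hn1 : 1 ≤ n := by omega
  have hen : e - (4 * n + 2) ≤ 3 := by omega
  have hen' : 4 * n + 2 ≤ e := by omega
  obtain ⟨n₀, hn₀⟩ := two_large.{u, v} n hn1 δ hδ
  refine ⟨n₀, ?_⟩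
  intro ι _ A _ mul hl hr htwo hA H hH
  obtain ⟨F, -, hF⟩ := exists_subset_card_eq (s := (univ : Finset (Option (Bool × Fin n))))
    (n := e - (4 * n + 2)) (by
      rw [card_univ]
      simp
      omega)
  obtain ⟨T, h1, h2, R, C, S, h3, h4⟩ := hn₀ ι A mul hl hr htwo hA H hH F
  exact ⟨T, h1, by omega, R, C, S, by omega, h4⟩

end Pool.Agent.Y426.BES
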